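import Pool.Agent.H27.P.Lists
import Pool.Agent.H27.Two.Geo

/-!
# Vanishing of pure theories from few factors
-/

set_option autoImplicit false
set_option linter.unusedSectionVars false
set_option linter.unusedVariables false

open CategoryTheory AlgebraicGeometry

universe u v w w'

namespace Pool.Agent.H27.P

open Polynomial Module Pool.Agent.H914 Pool.Agent.H914.VarClass Pool.Agent.H914.VarClass.Obj
  Pool.Agent.W492.BB Pool.Agent.W550.Corr Pool.Agent.TH133 Pool.Agent.W484.CH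
  Pool.Agent.Q56.CP Pool.Agent.Q56.FR
open Pool.Agent.H27.K3 (IsWeil)
open Pool.Agent.H27.Two (IsExact)
open Pool.Agent.H27.Lin (NoDual)

open Pool.Agent.Q56.FD (Qb)

variable {k : Type u} [Field k] {𝒱 : VarClass k} {C : TheoryData.{u, v, 0} 𝒱 ℚ} {K : Type w}
  [Field K] [CharZero K] {H : WeilTheoryData.{u, v, w} C K} [hC : IsChowProj C]
  [hH : IsWeilProj H] {Fr : ∀ X : 𝒱.Obj, X ⟶ X} {p a : ℕ} [Fact p.Prime]
  {I : Type w'} {w : I → ℕ} {γ : I → Qb} {𝒞 : I → ℕ → Set 𝒱.Obj} {Z : 𝒱.Obj}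

/-- the families which consist of `Z` and of members of the classes -/
def Adm (𝒞 : I → ℕ → Set 𝒱.Obj) (Z : 𝒱.Obj) (ι : Type) (X : ι → 𝒱.Obj) : Prop :=
  ∃ i₀, X i₀ = Z ∧ ∀ i, i ≠ i₀ → ∃ t r, X i ∈ 𝒞 t r

omit hH in
lemma q_pos : 0 < p ^ a := pow_pos (Fact.out : p.Prime).pos a

lemma split_of_factor (ha : 0 < a) (hFr : FrobTheory H Fr (p ^ a)) {A W : 𝒱.Obj}
    (h : IsFactor C A W) (hW : TateNil H Fr (p ^ a) W) (j : ℕ) : Split C (Fr A) (p ^ a) j :=
  hFr.split (one_lt_pow_prime ha) (h.nilpotence (nil_iff.1 hW.1))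
    (h.strong hFr.fam (q_pos (p := p) (a := a)).ne' hFr.finite (tate_iff.1 hW.2)) j

/-- **Blocks.** -/
theorem hasBlocks (ha : 0 < a) (hFr : FrobTheory H Fr (p ^ a))
    (hw : ∀ t, IsWeil (p ^ a) (w t) (γ t)) (hne : ∀ t, γ t ^ 2 ≠ ((p ^ a : ℕ) : Qb) ^ w t)
    (hnum : ∀ t r, ∀ Y ∈ 𝒞 t r, HasNumbers H Fr (p ^ a) w γ 𝒞 Y)
    (hpair : ∀ t r r', ∀ Y ∈ 𝒞 t r, ∀ Y' ∈ 𝒞 t r', TateNil H Fr (p ^ a) (Y.prod Y'))
    {P : List I → Prop} {T : CorrData C} (hT : IsPure T Fr (p ^ a))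
    (hvan : ∀ V ∈ productsWith 𝒞 P Z, ∀ r, T.gr V r = ⊥)
    (hshort : ∀ (i : ℕ) (β : Qb), Occurs H (Fr Z) i β → ∀ L : List (I × Qb),
      (∀ l ∈ L, IsConjRoot ℚ (γ l.1) l.2) → IsExact (p ^ a) w i β L → NoDual (p ^ a) w L →
        P (L.map Prod.fst)) :
    HasBlocks T Fr (p ^ a) (Adm 𝒞 Z) (RR H Fr) := by
  classical
  intro ι _ _ X hAdm α hα r hr
  obtain ⟨i₀, hi₀, hX⟩ := hAdm
  have hq := q_pos (p := p) (a := a)
  have hq0 : ((p ^ a : ℕ) : Qb) ≠ 0 := by exact_mod_cast hq.ne'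
  by_cases hA : ∃ i, i ≠ i₀ ∧ ∃ j : ℕ, α i = ((p ^ a : ℕ) : Qb) ^ j
  · -- an algebraic letter
    obtain ⟨i, hii, j, hj⟩ := hA
    right
    refine ⟨{i}, Finset.singleton_nonempty i, ⟨j, ?_, ?_⟩, ?_⟩
    · rw [Finset.prod_singleton, hj]
    · intro A prA hAp
      obtain ⟨t, s, hY⟩ := hX i hii
      obtain ⟨pr, hpr⟩ := isProd_finset X i [] (List.nodup_singleton i) {i} (by simp)
      exact split_of_factor ha hFr ((factor_of_isProd hAp hpr).trans
        (IsFactor.fst (X i) (X i))) (hpair t s s _ hY _ hY) j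
    · intro _
      refine ⟨⟨i₀, ?_⟩, hi₀, fun i' hi' => hX i' fun h => hi' (Subtype.ext h)⟩
      rw [Finset.mem_singleton]
      exact fun h => hii h.symm
  push Not at hA
  have hlet : ∀ i : {i // i ≠ i₀}, ∃ (t : I) (s : ℕ) (z : Qb), X i.1 ∈ 𝒞 t s ∧
      IsConjRoot ℚ (γ t) z ∧ α i.1 = z * ((p ^ a : ℕ) : Qb) ^ s := by
    rintro ⟨i, hi⟩
    obtain ⟨d, hd, ho⟩ := hα i
    obtain ⟨t₀, s₀, hY⟩ := hX i hi
    rcases ho.mem (hnum t₀ s₀ _ hY) with ⟨j, -, hj⟩ | ⟨t, s, z, h2, h3, h4, h5⟩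
    · exact absurd hj (hA i hi j)
    · exact ⟨t, s, z, h2, h3, h5⟩
  choose t s z hmem hconj hαz using hlet
  by_cases hB : ∃ i i' : {i // i ≠ i₀}, i ≠ i' ∧ t i = t i' ∧
      z i * z i' = ((p ^ a : ℕ) : Qb) ^ w (t i)
  · -- a dual pair
    obtain ⟨i, i', hii, htt, hzz⟩ := hB
    have hii' : i.1 ≠ i'.1 := fun h => hii (Subtype.ext h)
    right
    refine ⟨{i.1, i'.1}, ⟨i.1, Finset.mem_insert_self _ _⟩, ⟨w (t i) + s i + s i', ?_, ?_⟩, ?_⟩
    · rw [Finset.prod_pair hii', hαz, hαz, pow_add, pow_add, ← hzz]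
      ring
    · intro A prA hAp
      obtain ⟨pr, hpr⟩ := isProd_finset X i.1 [i'.1] (by simp [hii']) {i.1, i'.1} (by simp)
      exact split_of_factor ha hFr (factor_of_isProd hAp hpr)
        (hpair (t i) (s i) (s i') _ (hmem i) _ (by rw [htt]; exact hmem i')) _
    · intro _
      refine ⟨⟨i₀, ?_⟩, hi₀, fun i' hi' => hX i' fun h => hi' (Subtype.ext h)⟩
      rw [Finset.mem_insert, Finset.mem_singleton, not_or]
      exact ⟨fun h => i.2 h.symm, fun h => i'.2 h.symm⟩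
  -- a short word
  left
  subst hi₀
  obtain ⟨d, hd, ho⟩ := hα i₀
  intro Z' pr' hZ'
  let is : List {i // i ≠ i₀} := Finset.univ.toList
  let L : List (I × Qb) := is.map fun i => (t i, z i)
  have hL : ∀ l ∈ L, IsConjRoot ℚ (γ l.1) l.2 := by
    intro l hl
    obtain ⟨i, -, rfl⟩ := List.mem_map.1 hl
    exact hconj i
  have hprod : α i₀ * (∏ i, z i) * ((p ^ a : ℕ) : Qb) ^ (∑ i, s i) =
      ((p ^ a : ℕ) : Qb) ^ r := by
    rw [← hr, Fintype.prod_eq_mul_prod_subtype_ne (fun i => α i) i₀]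
    rw [Finset.prod_congr rfl fun i _ => hαz i, Finset.prod_mul_distrib, Finset.prod_pow_eq_pow_sum,
      mul_assoc]
  have hLprod : (L.map Prod.snd).prod = ∏ i, z i := by
    rw [List.map_map]
    exact Finset.prod_map_toList Finset.univ z
  have hLsum : (L.map fun l => w l.1).sum = ∑ i, w (t i) := by
    rw [List.map_map]
    exact Finset.sum_map_toList Finset.univ fun i => w (t i)
  have hnorm : ((d + ∑ i, w (t i) + 2 * ∑ i, s i : ℕ) : ℤ) = 2 * r := by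
    let φ : Qb →+* ℂ := (IsAlgClosed.lift : Qb →ₐ[ℚ] ℂ).toRingHom
    have h1 := congrArg (fun x => ‖φ x‖ ^ 2) hprod
    simp only [map_mul, map_pow, map_zpow₀, map_natCast, norm_mul, norm_pow, norm_zpow,
      Complex.norm_natCast, map_prod, norm_prod, mul_pow] at h1
    rw [(Occurs.weil hFr ho) φ, ← Finset.prod_pow, Finset.prod_congr rfl fun i _ =>
      ((hw (t i)).conj (hconj i)) φ, Finset.prod_pow_eq_pow_sum, ← pow_add, ← pow_mul, ← pow_add,
      ← zpow_natCast, ← zpow_natCast, ← zpow_mul] at h1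
    have h4 : (1 : ℝ) < ((p ^ a : ℕ) : ℝ) := by
      exact_mod_cast one_lt_pow_prime (p := p) ha
    have h5 := zpow_right_injective₀ (by linarith) h4.ne' h1
    push_cast at h5 ⊢
    linarith
  have hex : IsExact (p ^ a) w d (α i₀) L := by
    obtain ⟨j, hj⟩ : ∃ j : ℕ, (j : ℤ) = r - ∑ i, s i := by
      refine ⟨(r - ∑ i, s i).toNat, Int.toNat_of_nonneg ?_⟩
      push_cast at hnorm ⊢
      have : (0 : ℤ) ≤ (d : ℤ) + ∑ i, (w (t i) : ℤ) := by positivity
      linarith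
    refine ⟨j, ?_, ?_⟩
    · rw [hLprod]
      have h1 : ((p ^ a : ℕ) : Qb) ^ (∑ i, s i) ≠ 0 := pow_ne_zero _ hq0
      apply mul_right_cancel₀ h1
      rw [hprod, ← zpow_natCast, ← zpow_natCast, ← zpow_add₀ hq0, hj]
      congr 1
      push_cast
      ring
    · rw [hLsum]
      push_cast at hnorm
      have : ((d + ∑ i, w (t i) : ℕ) : ℤ) = ((2 * j : ℕ) : ℤ) := by
        push_cast
        push_cast at hj
        linarith
      exact_mod_cast this
  have hno : NoDual (p ^ a) w L := by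
    intro l hl hl'
    obtain ⟨i, -, rfl⟩ := List.mem_map.1 hl
    obtain ⟨i', -, h2⟩ := List.mem_map.1 hl'
    have h3 : t i' = t i := congrArg Prod.fst h2
    have h4 : z i' = ((p ^ a : ℕ) : Qb) ^ w (t i) / z i := congrArg Prod.snd h2
    have hz0 : z i ≠ 0 := ((hw (t i)).conj (hconj i)).ne_zero hq
    have h5 : z i * z i' = ((p ^ a : ℕ) : Qb) ^ w (t i) := by
      rw [h4, mul_div_cancel₀ _ hz0]
    by_cases hii : i = i'
    · subst hii
      obtain ⟨σ, hσ⟩ := isConjRoot_iff_exists_algEquiv.1 (hconj i)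
      apply hne (t i)
      rw [← hσ, ← map_pow, sq, h5, map_pow, map_natCast]
    · exact hB ⟨i, i', hii, h3.symm, h5⟩
  have hP := hshort d (α i₀) ho L hL hex hno
  have hmemV : prodL (X i₀) ((is.map Subtype.val).map X) ∈ productsWith 𝒞 P (X i₀) := by
    refine ⟨is.map fun i => (t i, X i.1), ?_, ?_, ?_⟩
    · intro u hu
      obtain ⟨i, -, rfl⟩ := List.mem_map.1 hu
      exact ⟨s i, hmem i⟩
    · rw [List.map_map] at hP ⊢
      exact hP
    · rw [foldr_eq, List.map_map, List.map_map]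
      rfl
  obtain ⟨pr, hpr⟩ := isProd_univ X i₀ (is.map Subtype.val) (by
    rw [List.nodup_cons]
    refine ⟨fun h => ?_, (Finset.nodup_toList _).map Subtype.val_injective⟩
    obtain ⟨i, -, hi⟩ := List.mem_map.1 h
    exact i.2 hi) (fun j => by
      by_cases hj : j = i₀
      · rw [hj]
        exact List.mem_cons_self
      · exact List.mem_cons_of_mem _ (List.mem_map.2 ⟨⟨j, hj⟩, by
          rw [Finset.mem_toList]; exact Finset.mem_univ _, rfl⟩))
  exact (factor_of_isProd hZ' hpr).vanish hT.corr (hvan _ hmemV r)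

end Pool.Agent.H27.P
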