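import Pool.Graph.R_seed8.TH133.Defs
import Pool.Graph.R_pool_sql_team_seeded_3997aac3.Q56.CP.DefsQ
import Pool.Agent.H27.K3.Defs

/-!
# Pure theories on the products of an arbitrary variety with many varieties: definitions
-/

set_option autoImplicit false

open CategoryTheory AlgebraicGeometry

universe u v w w'

namespace Pool.Agent.H27.P

open Polynomial Pool.Agent.H914 Pool.Agent.H914.VarClass Pool.Agent.H914.VarClass.Obj
  Pool.Agent.W492.BB Pool.Agent.H27.K3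
open Pool.Agent.Q56.CP (Pure)

/-- The algebraic number `α` is a root of the integral polynomial `P`. -/
def IsZero (P : ℤ[X]) (α : Qb) : Prop := P.eval₂ (Int.castRingHom Qb) α = 0

variable {k : Type u} [Field k] {𝒱 : VarClass k} {C : TheoryData.{u, v, 0} 𝒱 ℚ} {K : Type w}
  [Field K]

/-- The operator `P(f^*)` annihilates `H^i(X)`. -/
def Annihilates (H : WeilTheoryData.{u, v, w} C K) {X : 𝒱.Obj} (f : X ⟶ X) (P : ℤ[X])
    (i : ℕ) : Prop :=
  ∀ x : H.A X, H.Deg i x → P.sum (fun n c => (c : K) • (H.up f)^[n] x) = 0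

/-- `Fr` are the Frobenius endomorphisms of the varieties over the field with `q` elements: they
are compatible with all morphisms; `Fr X` acts on `CH^i(X)` as multiplication by `q ^ i`, and has
degree `q ^ dim X`; the cohomology is finite-dimensional, and `Fr X` is annihilated on `H^i(X)` by
an integral monic polynomial whose roots have absolute value `q ^ (i / 2)` (Deligne). -/
structure FrobTheory (H : WeilTheoryData.{u, v, w} C K) (Fr : ∀ X : 𝒱.Obj, X ⟶ X) (q : ℕ) :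
    Prop where
  nat : ∀ {X Y : 𝒱.Obj} (f : X ⟶ Y), Fr X ≫ f = f ≫ Fr Y
  chow : ∀ (X : 𝒱.Obj) (i : ℕ) (z : C.A X), C.Deg i z → C.up (Fr X) z = (q : ℚ) ^ i • z
  degree : ∀ X : 𝒱.Obj, C.down (Fr X) 1 = (q : ℚ) ^ X.dim • (1 : C.A X)
  finite : ∀ X, Module.Finite K (H.A X)
  weil : ∀ (X : 𝒱.Obj) (i : ℕ), ∃ P : ℤ[X], P.Monic ∧ Annihilates H (Fr X) P i ∧
    ∀ α : Qb, IsZero P α → IsWeil q i α

/-- The iterates of the self-correspondence `Γ` of `X`. -/
noncomputable def iter (C : TheoryData.{u, v, 0} 𝒱 ℚ) {X : 𝒱.Obj} (Γ : C.A (X.prod X)) (n : ℕ) :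
    C.A (X.prod X) :=
  (fun Δ => C.comp Δ Γ)^[n] (C.graph (𝟙 X))

/-- Every self-correspondence of degree zero of `X` which acts as zero on the cohomology is
nilpotent modulo rational equivalence. -/
def Nil (H : WeilTheoryData.{u, v, w} C K) (X : 𝒱.Obj) : Prop :=
  ∀ Γ : C.A (X.prod X), C.Deg X.dim Γ → (∀ a : H.A X, H.act (H.cl Γ) a = 0) →
    ∃ n : ℕ, iter C Γ n = 0

/-- The strong form of the Tate conjecture for `X`, over the field with `q` elements: for all `j`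
the generalised eigenspace of the Frobenius endomorphism on `H^(2j)(X)` for the eigenvalue `q ^ j`
is spanned by the classes of cycles of codimension `j`. -/
def Tate (H : WeilTheoryData.{u, v, w} C K) (Fr : ∀ X : 𝒱.Obj, X ⟶ X) (q : ℕ)
    (X : 𝒱.Obj) : Prop :=
  ∀ (j n : ℕ) (x : H.A X), H.Deg (2 * j) x →
    (fun y => H.up (Fr X) y - (q : K) ^ j • y)^[n] x = 0 →
      x ∈ Submodule.span K {c | ∃ z : C.A X, C.Deg j z ∧ H.cl z = c}

/-- The homologically trivial self-correspondences of `X` of degree zero are nilpotent, and `X`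
satisfies the strong Tate conjecture. -/
def TateNil (H : WeilTheoryData.{u, v, w} C K) (Fr : ∀ X : 𝒱.Obj, X ⟶ X) (q : ℕ)
    (X : 𝒱.Obj) : Prop :=
  Nil H X ∧ Tate H Fr q X

/-- The Chow motive of `Z` is a direct factor of a finite direct sum of Tate twists of the Chow
motives of varieties in `𝒮`: there are varieties `W l` in `𝒮` and correspondences `Q l` from `Z`
to `W l`, of degree `n l`, and `P l` from `W l` to `Z`, of degree `- n l`, such that the sum of the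
compositions of `Q l` and `P l` is the identity of `Z`. -/
def SumFactor (C : TheoryData.{u, v, 0} 𝒱 ℚ) (𝒮 : Set 𝒱.Obj) (Z : 𝒱.Obj) : Prop :=
  ∃ (m : ℕ) (W : Fin m → 𝒱.Obj) (n : Fin m → ℤ) (Q : ∀ l, C.A (Z.prod (W l)))
    (P : ∀ l, C.A ((W l).prod Z)), (∀ l, W l ∈ 𝒮) ∧ (∀ l, C.Deg (Z.dim + n l) (Q l)) ∧
    (∀ l, C.Deg ((W l).dim - n l) (P l)) ∧ ∑ l, C.comp (Q l) (P l) = C.graph (𝟙 Z)

/-- The eigenvalues of `f^*` on `H^i(X)` belong to `E i`: a nonzero integral polynomial all of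
whose roots are in `E i` annihilates `f^*` on `H^i(X)`. -/
def EigenvaluesIn (H : WeilTheoryData.{u, v, w} C K) {X : 𝒱.Obj} (f : X ⟶ X)
    (E : ℕ → Set Qb) : Prop :=
  ∀ i : ℕ, ∃ P : ℤ[X], P ≠ 0 ∧ Annihilates H f P i ∧ ∀ α : Qb, IsZero P α → α ∈ E i

/-- The width of the Frobenius eigenvalues of `Z` is at most `D`: their slopes on `H^i(Z)` differ
from `i / 2` by at most `D / 2`. -/
def HasWidthAtMost (H : WeilTheoryData.{u, v, w} C K) (Fr : ∀ X : 𝒱.Obj, X ⟶ X) (lam : Qb → ℚ)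
    (D : ℚ) (Z : 𝒱.Obj) : Prop :=
  EigenvaluesIn H (Fr Z) fun i => {α | |2 * lam α - i| ≤ D}

variable {I : Type w'}

/-- The Frobenius eigenvalues of `Y` on `H^i(Y)` are `q ^ (i / 2)` and numbers `z q ^ r` with
`i = w t + 2 r`, where `z` is a conjugate of `γ t` and `t`, `r` are such that `Y` lies in
`𝒞 t r`. -/
def HasNumbers (H : WeilTheoryData.{u, v, w} C K) (Fr : ∀ X : 𝒱.Obj, X ⟶ X) (q : ℕ)
    (w : I → ℕ) (γ : I → Qb) (𝒞 : I → ℕ → Set 𝒱.Obj) (Y : 𝒱.Obj) : Prop :=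
  EigenvaluesIn H (Fr Y) fun i => {α | (∃ j, i = 2 * j ∧ α = (q : Qb) ^ j) ∨
    ∃ (t : I) (r : ℕ) (z : Qb), Y ∈ 𝒞 t r ∧ IsConjRoot ℚ (γ t) z ∧ i = w t + 2 * r ∧
      α = z * (q : Qb) ^ r}

/-- The products `Z × Y 1 × ⋯ × Y n` of `Z` with varieties `Y i` in the classes `𝒞 (t i) (r i)`
such that the list `t 1, …, t n` of types has the property `P`. -/
def productsWith (𝒞 : I → ℕ → Set 𝒱.Obj) (P : List I → Prop) (Z : 𝒱.Obj) : Set 𝒱.Obj :=
  {V | ∃ s : List (I × 𝒱.Obj), (∀ u ∈ s, ∃ r, u.2 ∈ 𝒞 u.1 r) ∧ P (s.map Prod.fst) ∧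
    s.foldr (fun u W => W.prod u.2) Z = V}

/-- The pure theory `T` vanishes on `V`. -/
def Vanishes {Fr : ∀ X : 𝒱.Obj, X ⟶ X} {q : ℕ} (T : Pure C Fr q) (V : 𝒱.Obj) : Prop :=
  ∀ r : ℤ, T.gr V r = ⊥

end Pool.Agent.H27.P
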