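import Pool.Agent.H27.P.Defs
import Pool.Graph.R_pool_sql_team_seeded_3997aac3.Q56.CP.Fam

/-!
# The Frobenius eigenvalues as common roots
-/

set_option autoImplicit false
set_option linter.unusedSectionVars false

open CategoryTheory AlgebraicGeometry

universe u v w w'

namespace Pool.Agent.H27.P

open Polynomial Module Pool.Agent.H914 Pool.Agent.H914.VarClass Pool.Agent.H914.VarClass.Obj
  Pool.Agent.W492.BB Pool.Agent.W550.Corr Pool.Agent.TH133 Pool.Agent.W484.CH
  Pool.Agent.Q56.CP Pool.Agent.Q56.FR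

open Pool.Agent.Q56.FD (Qb)

section Abstract

variable {K V : Type*} [Field K] [CharZero K] [AddCommGroup V] [Module K V]

/-- the polynomial annihilates the subset `S` -/
def Kills (φ : Module.End K V) (S : Set V) (P : ℤ[X]) : Prop := ∀ x ∈ S, aeval φ P x = 0

/-- the integral polynomials which annihilate have common roots, which are the roots of one of
them -/
theorem exists_minimal (φ : Module.End K V) (S : Set V) {P₀ : ℤ[X]} (h0 : P₀ ≠ 0)
    (hP₀ : Kills φ S P₀) : ∃ P : ℤ[X], P ≠ 0 ∧ Kills φ S P ∧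
      ∀ α : Qb, aeval α P = 0 → ∀ P' : ℤ[X], Kills φ S P' → aeval α P' = 0 := by
  classical
  -- the ideal of rational polynomials which annihilate
  let θ : ℚ[X] →+* Module.End K V :=
    ((aeval φ : K[X] →ₐ[K] Module.End K V) : K[X] →+* Module.End K V).comp
      (mapRingHom (algebraMap ℚ K))
  let J : Ideal ℚ[X] :=
    { carrier := {P | ∀ x ∈ S, θ P x = 0}
      add_mem' := fun {P Q} hP hQ x hx => by
        rw [map_add, LinearMap.add_apply, hP x hx, hQ x hx, add_zero]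
      zero_mem' := fun x _ => by rw [map_zero, LinearMap.zero_apply]
      smul_mem' := fun Q P hP x hx => by
        rw [smul_eq_mul, map_mul, Module.End.mul_apply, hP x hx, map_zero] }
  have hθ : ∀ P : ℤ[X], θ (P.map (algebraMap ℤ ℚ)) = aeval φ P := by
    intro P
    change aeval φ ((P.map (algebraMap ℤ ℚ)).map (algebraMap ℚ K)) = _
    rw [Polynomial.map_map, ← IsScalarTower.algebraMap_eq ℤ ℚ K, aeval_map_algebraMap]
  have hJ : ∀ P : ℤ[X], P.map (algebraMap ℤ ℚ) ∈ J ↔ Kills φ S P := by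
    intro P
    change (∀ x ∈ S, θ (P.map (algebraMap ℤ ℚ)) x = 0) ↔ _
    rw [hθ]
    rfl
  let m : ℚ[X] := Submodule.IsPrincipal.generator J
  have hm : ∀ P, P ∈ J ↔ m ∣ P := fun P => by
    rw [← Ideal.mem_span_singleton, Ideal.span_singleton_generator]
  have hinj : Function.Injective (algebraMap ℤ ℚ) := (algebraMap ℤ ℚ).injective_int
  have hm0 : m ≠ 0 := by
    intro h
    have h1 := (hm _).1 ((hJ P₀).2 hP₀)
    rw [h, zero_dvd_iff] at h1
    exact h0 ((Polynomial.map_eq_zero_iff hinj).1 h1)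
  obtain ⟨b, hb⟩ := IsLocalization.integerNormalization_map_to_map (nonZeroDivisors ℤ) m
  set P := IsLocalization.integerNormalization (nonZeroDivisors ℤ) m with hPdef
  have hb0 : ((b : ℤ) : ℚ) ≠ 0 := by
    exact_mod_cast nonZeroDivisors.ne_zero b.2
  have hP : P.map (algebraMap ℤ ℚ) = Polynomial.C ((b : ℤ) : ℚ) * m := by
    rw [hb]
    ext n
    simp
  refine ⟨P, ?_, ?_, fun α hα P' hP' => ?_⟩
  · intro h
    rw [h, Polynomial.map_zero, eq_comm, mul_eq_zero] at hP
    rcases hP with h1 | h1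
    · exact hb0 (Polynomial.C_eq_zero.1 h1)
    · exact hm0 h1
  · rw [← hJ, hP, hm]
    exact Dvd.intro_left _ rfl
  · have h1 : aeval α m = 0 := by
      have h2 : aeval α (P.map (algebraMap ℤ ℚ)) = 0 := by
        rw [aeval_map_algebraMap]
        exact hα
      rw [hP, map_mul, aeval_C, mul_eq_zero] at h2
      exact h2.resolve_left ((_root_.map_ne_zero _).2 hb0)
    obtain ⟨Q, hQ⟩ := (hm _).1 ((hJ P').2 hP')
    have h2 : aeval α (P'.map (algebraMap ℤ ℚ)) = 0 := by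
      rw [hQ, map_mul, h1, zero_mul]
    rwa [aeval_map_algebraMap] at h2

end Abstract

section Occurs

variable {k : Type u} [Field k] {𝒱 : VarClass k} {C : TheoryData.{u, v, 0} 𝒱 ℚ} {K : Type w}
  [Field K] [CharZero K] {H : WeilTheoryData.{u, v, w} C K} {X Y : 𝒱.Obj}

lemma isZero_iff {P : ℤ[X]} {α : Qb} : IsZero P α ↔ aeval α P = 0 := by
  rw [IsZero, aeval_def, show (Int.castRingHom Qb) = algebraMap ℤ Qb from Subsingleton.elim _ _]

lemma annihilates_iff {f : X ⟶ X} {P : ℤ[X]} {i : ℕ} :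
    Annihilates H f P i ↔ ∀ x ∈ H.gr X i, aeval (hF H f) P x = 0 := by
  have h1 : ∀ x : H.A X, aeval (hF H f) P x = P.sum fun n c => (c : K) • (H.up f)^[n] x := by
    intro x
    rw [aeval_eq_sum_range, LinearMap.sum_apply, Polynomial.sum_over_range]
    · refine Finset.sum_congr rfl fun n _ => ?_
      rw [LinearMap.smul_apply, Module.End.pow_apply, Int.cast_smul_eq_zsmul]
      rfl
    · intro n
      rw [Int.cast_zero, zero_smul]
  constructor
  · intro h x hx
    rw [h1]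
    exact h x hx
  · intro h x hx
    rw [← h1]
    exact h x hx

/-- the eigenvalue occurs in degree `i` -/
def Occurs (H : WeilTheoryData.{u, v, w} C K) {X : 𝒱.Obj} (f : X ⟶ X) (i : ℕ) (α : Qb) : Prop :=
  ∀ P : ℤ[X], Annihilates H f P i → aeval α P = 0

/-- the eigenvalues of the Frobenius endomorphism -/
def RR (H : WeilTheoryData.{u, v, w} C K) (Fr : ∀ X : 𝒱.Obj, X ⟶ X) (Y : 𝒱.Obj) : Set Qb :=
  {α | ∃ i ≤ 2 * Y.dim, Occurs H (Fr Y) i α}

lemma Occurs.mem {f : X ⟶ X} {i : ℕ} {α : Qb} (ho : Occurs H f i α) {E : ℕ → Set Qb}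
    (h : EigenvaluesIn H f E) : α ∈ E i := by
  obtain ⟨P, -, hP, hE⟩ := h i
  exact hE α (isZero_iff.2 (ho P hP))

lemma aeval_conj {α β : Qb} (h : IsConjRoot ℚ α β) {P : ℤ[X]} (hP : aeval α P = 0) :
    aeval β P = 0 := by
  obtain ⟨σ, rfl⟩ := isConjRoot_iff_exists_algEquiv.1 h.symm
  have h1 : aeval (((σ : Qb →ₐ[ℚ] Qb).restrictScalars ℤ) α) P =
      ((σ : Qb →ₐ[ℚ] Qb).restrictScalars ℤ) (aeval α P) := aeval_algHom_apply _ _ _
  rw [hP, map_zero] at h1
  exact h1

lemma Occurs.conj {f : X ⟶ X} {i : ℕ} {α β : Qb} (ho : Occurs H f i α)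
    (h : IsConjRoot ℚ α β) : Occurs H f i β :=
  fun P hP => aeval_conj h (ho P hP)

end Occurs

/-! ### The Frobenius endomorphisms -/

section Frob

variable {k : Type u} [Field k] {𝒱 : VarClass k} {C : TheoryData.{u, v, 0} 𝒱 ℚ} {K : Type w}
  [Field K] {H : WeilTheoryData.{u, v, w} C K} {X Y : 𝒱.Obj} {Fr : ∀ X : 𝒱.Obj, X ⟶ X} {q : ℕ}

lemma FrobTheory.frobenius (hFr : FrobTheory H Fr q) (X : 𝒱.Obj) : IsFrobenius C (Fr X) q :=
  ⟨hFr.chow X, hFr.degree X⟩

lemma iter_eq (Γ : C.A (X.prod X)) (n : ℕ) : iter C Γ n = powC C Γ n := by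
  induction n with
  | zero => rfl
  | succ n ih =>
    rw [iter, Function.iterate_succ_apply', ← iter, ih]
    rfl

lemma nil_iff : Nil H X ↔ Nilpotence H X := by
  simp only [Nil, Nilpotence, iter_eq]

lemma tate_iff : Tate H Fr q X ↔ StrongTate H Fr q X := by
  have h1 : ∀ (j n : ℕ) (x : H.A X),
      ((hF H (Fr X) - ((q : K) ^ j) • (1 : Module.End K (H.A X))) ^ n) x =
        (fun y => H.up (Fr X) y - (q : K) ^ j • y)^[n] x := by
    intro j n x
    rw [Module.End.pow_apply]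
    rfl
  have h2 : ∀ j : ℕ, (aSpan H X j : Submodule K (H.A X)) =
      Submodule.span K {c | ∃ z : C.A X, C.Deg j z ∧ H.cl z = c} := by
    intro j
    rw [aSpan]
    congr 1
    ext c
    simp only [Set.mem_ofPred_eq]
    constructor
    · rintro ⟨z, h, h'⟩
      exact ⟨z, h, h'.symm⟩
    · rintro ⟨z, h, h'⟩
      exact ⟨z, h, h'.symm⟩
  constructor
  · intro h j x hx hn
    obtain ⟨n, hn⟩ := hn
    rw [h1] at hn
    rw [h2]
    exact h j n x hx hn
  · intro h j n x hx hn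
    rw [← h2]
    exact h j x hx ⟨n, by rw [h1]; exact hn⟩

variable [CharZero K] [hC : IsChowProj C] [hH : IsWeilProj H]

omit hC hH [CharZero K] in
lemma exists_root {P : ℤ[X]} (hP : P.Monic) {z : ℂ} (hz : aeval z P = 0) :
    ∃ (φ : Qb →+* ℂ) (α : Qb), φ α = z ∧ aeval α P = 0 := by
  let φ : Qb →ₐ[ℚ] ℂ := IsAlgClosed.lift
  have h1 : (P.map (algebraMap ℤ Qb)).Splits := IsAlgClosed.splits _
  have h2 : z ∈ (P.map (algebraMap ℤ ℂ)).roots := by
    rw [mem_roots (hP.map _).ne_zero, IsRoot.def, Polynomial.eval_map, ← aeval_def]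
    exact hz
  have h3 : P.map (algebraMap ℤ ℂ) = (P.map (algebraMap ℤ Qb)).map (φ : Qb →+* ℂ) := by
    rw [Polynomial.map_map]
    congr 1
    exact Subsingleton.elim _ _
  rw [h3, h1.roots_map, Multiset.mem_map] at h2
  obtain ⟨α, hα, h4⟩ := h2
  refine ⟨φ, α, h4, ?_⟩
  rw [mem_roots (hP.map _).ne_zero, IsRoot.def, Polynomial.eval_map, ← aeval_def] at hα
  exact hα

lemma FrobTheory.weights (hFr : FrobTheory H Fr q) (X : 𝒱.Obj) : Weights H (Fr X) q := by
  intro i
  obtain ⟨P, hP, hk, hw⟩ := hFr.weil X i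
  refine ⟨P, hP.ne_zero, fun z hz => ?_, annihilates_iff.1 hk⟩
  obtain ⟨φ, α, rfl, hα⟩ := exists_root hP hz
  exact hw α (isZero_iff.2 hα) φ

lemma FrobTheory.fam (hFr : FrobTheory H Fr q) : IsFrobFamily C Fr q := ⟨hFr.nat, hFr.frobenius⟩

/-- Splittings from the strong Tate conjecture and nilpotence. -/
theorem FrobTheory.split (hFr : FrobTheory H Fr q) (hq : 1 < q) (hN : Nilpotence H X)
    (hT : StrongTate H Fr q X) (j : ℕ) : Split C (Fr X) q j := by
  have hfin := hFr.finite X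
  choose Q hQ using hFr.weil X
  have h1 : chi X Q ≠ 0 := Finset.prod_ne_zero_iff.2 fun i _ => (hQ i).1.ne_zero
  refine split_of hq (hFr.frobenius X) (hFr.weights X) hN
    (χ := (chi X Q).map (algebraMap ℤ ℚ))
    ((Polynomial.map_ne_zero_iff (algebraMap ℤ ℚ).injective_int).2 h1) ?_ hT j
  rw [aeval_map_rat]
  exact chi_kills fun i _ => annihilates_iff.1 (hQ i).2.1

/-- A polynomial relation for the Frobenius endomorphism in the ring of correspondences. -/
theorem exists_rel (hFr : FrobTheory H Fr q) (hN : Nilpotence H Y) :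
    ∃ P : ℚ[X], P ≠ 0 ∧ aeval (fr C (Fr Y)) P = 0 ∧
      ∀ α : Qb, aeval α P = 0 → α ∈ RR H Fr Y := by
  have h1 : ∀ i : ℕ, ∃ P : ℤ[X], P ≠ 0 ∧ Kills (hF H (Fr Y)) (H.gr Y i) P ∧
      ∀ α : Qb, aeval α P = 0 → ∀ P' : ℤ[X], Kills (hF H (Fr Y)) (H.gr Y i) P' →
        aeval α P' = 0 := by
    intro i
    obtain ⟨P₀, hP₀, hk, -⟩ := hFr.weil Y i
    exact exists_minimal _ _ hP₀.ne_zero (annihilates_iff.1 hk)
  choose Q hQ0 hQk hQm using h1
  obtain ⟨P, hP0, hP1, hP2⟩ := exists_relation (f := Fr Y) hN (fun i _ => hQ0 i)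
    fun i _ => hQk i
  refine ⟨P, hP0, hP1, fun α hα => ?_⟩
  obtain ⟨i, hi, h2⟩ := hP2 α hα
  exact ⟨i, hi, fun P' hP' => hQm i α h2 P' (annihilates_iff.1 hP')⟩

/-- the absolute values of the eigenvalues -/
lemma Occurs.weil (hFr : FrobTheory H Fr q) {i : ℕ} {α : Qb} (ho : Occurs H (Fr Y) i α) :
    H27.K3.IsWeil q i α := by
  obtain ⟨P, hP, hk, hw⟩ := hFr.weil Y i
  exact hw α (isZero_iff.2 (ho P hk))

end Frob

end Pool.Agent.H27.P
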