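import Pool.Agent.H27.P.Eig

/-!
# Products of lists as products of families
-/

set_option autoImplicit false
set_option linter.unusedSectionVars false

open CategoryTheory AlgebraicGeometry

universe u v w w'

namespace Pool.Agent.H27.P

open Pool.Agent.H914 Pool.Agent.H914.VarClass Pool.Agent.H914.VarClass.Obj
  Pool.Agent.W492.BB Pool.Agent.W550.Corr Pool.Agent.TH133 Pool.Agent.W484.CH
  Pool.Agent.Q56.CP Pool.Agent.Q56.FR

variable {k : Type u} [Field k] {𝒱 : VarClass k}

/-- products of lists of pairs -/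
lemma foldr_eq {I : Type*} (Z : 𝒱.Obj) (s : List (I × 𝒱.Obj)) :
    s.foldr (fun u W => W.prod u.2) Z = prodL Z (s.map Prod.snd) := by
  induction s with
  | nil => rfl
  | cons u s ih =>
    rw [List.foldr_cons, ih]
    rfl

/-- products of lists with different indices -/
theorem isProd_list {ι : Type} (X : ι → 𝒱.Obj) (i₀ : ι) : ∀ s : List ι, (i₀ :: s).Nodup →
    ∃ pr : ∀ j : {j // j ∈ i₀ :: s}, prodL (X i₀) (s.map X) ⟶ X j.1,
      IsProd (fun j : {j // j ∈ i₀ :: s} => X j.1) (prodL (X i₀) (s.map X)) pr := by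
  classical
  intro s
  induction s with
  | nil =>
    intro _
    change ∃ pr : ∀ j : {j // j ∈ [i₀]}, X i₀ ⟶ X j.1,
      IsProd (fun j : {j // j ∈ [i₀]} => X j.1) (X i₀) pr
    refine ⟨fun j => eqToHom (by rw [List.mem_singleton.1 j.2]), ?_, ?_⟩
    · intro W f
      refine ⟨f ⟨i₀, List.mem_singleton_self i₀⟩, fun j => ?_⟩
      obtain ⟨j, hj⟩ := j
      obtain rfl := List.mem_singleton.1 hj
      rw [eqToHom_refl]
      exact Category.comp_id _
    · intro W g g' hh
      have h1 := hh ⟨i₀, List.mem_singleton_self i₀⟩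
      rw [eqToHom_refl] at h1
      exact (Category.comp_id g).symm.trans (h1.trans (Category.comp_id g'))
  | cons i s ih =>
    intro hnd
    have hnd' : (i₀ :: s).Nodup := by
      rw [List.nodup_cons] at hnd ⊢
      rw [List.nodup_cons] at hnd
      exact ⟨fun h => hnd.1 (List.mem_cons_of_mem _ h), hnd.2.2⟩
    have hi : i ∉ i₀ :: s := by
      rw [List.nodup_cons, List.nodup_cons] at hnd
      rw [List.mem_cons, not_or]
      exact ⟨fun h => hnd.1 (h ▸ List.mem_cons_self), hnd.2.1⟩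
    obtain ⟨pr, h⟩ := ih hnd'
    have hmem : ∀ j, j ∈ i₀ :: i :: s → j ≠ i → j ∈ i₀ :: s := by
      intro j hj hne
      rcases List.mem_cons.1 hj with rfl | hj
      · exact List.mem_cons_self
      · exact List.mem_cons_of_mem _ ((List.mem_cons.1 hj).resolve_left hne)
    have hmem' : ∀ j, j ∈ i₀ :: s → j ∈ i₀ :: i :: s := by
      intro j hj
      rcases List.mem_cons.1 hj with rfl | hj
      · exact List.mem_cons_self
      · exact List.mem_cons_of_mem _ (List.mem_cons_of_mem _ hj)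
    have hii : i ∈ i₀ :: i :: s := List.mem_cons_of_mem _ List.mem_cons_self
    change ∃ pr' : ∀ j : {j // j ∈ i₀ :: i :: s},
      (prodL (X i₀) (s.map X)).prod (X i) ⟶ X j.1, IsProd _ _ pr'
    refine ⟨fun j => if hj : j.1 = i then snd _ _ ≫ eqToHom (by rw [hj]) else
      fst _ _ ≫ pr ⟨j.1, hmem j.1 j.2 hj⟩, ?_, ?_⟩
    · intro W f
      obtain ⟨g, hg⟩ := h.lift fun j => f ⟨j.1, hmem' j.1 j.2⟩
      refine ⟨Obj.lift g (f ⟨i, hii⟩), fun j => ?_⟩
      obtain ⟨j, hj⟩ := j
      by_cases hji : j = i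
      · subst hji
        rw [dif_pos rfl, eqToHom_refl, Category.comp_id, lift_snd]
      · rw [dif_neg hji, lift_fst_assoc, hg]
    · intro W g g' hh
      apply prod_ext
      · refine h.ext fun j => ?_
        have hji : j.1 ≠ i := fun h => hi (h ▸ j.2)
        have h1 := hh ⟨j.1, hmem' j.1 j.2⟩
        rw [dif_neg hji, ← Category.assoc, ← Category.assoc] at h1
        exact h1
      · have h1 := hh ⟨i, hii⟩
        rw [dif_pos rfl, eqToHom_refl, Category.comp_id] at h1
        exact h1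

/-- products over finite sets of indices -/
theorem isProd_finset {ι : Type} (X : ι → 𝒱.Obj) (i₀ : ι) (s : List ι) (hs : (i₀ :: s).Nodup)
    (B : Finset ι) (hB : ∀ j, j ∈ B ↔ j ∈ i₀ :: s) :
    ∃ pr : ∀ j : {j // j ∈ B}, prodL (X i₀) (s.map X) ⟶ X j.1,
      IsProd (fun j : {j // j ∈ B} => X j.1) (prodL (X i₀) (s.map X)) pr := by
  obtain ⟨pr, h⟩ := isProd_list X i₀ s hs
  exact ⟨_, h.reindex (Equiv.subtypeEquivRight hB)⟩

/-- products over all indices -/
theorem isProd_univ {ι : Type} (X : ι → 𝒱.Obj) (i₀ : ι) (s : List ι) (hs : (i₀ :: s).Nodup)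
    (hB : ∀ j, j ∈ i₀ :: s) :
    ∃ pr : ∀ j : ι, prodL (X i₀) (s.map X) ⟶ X j, IsProd X (prodL (X i₀) (s.map X)) pr := by
  obtain ⟨pr, h⟩ := isProd_list X i₀ s hs
  exact ⟨_, h.reindex ((Equiv.subtypeUnivEquiv hB).symm)⟩

end Pool.Agent.H27.P
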