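import Pool.Agent.H27.P.Eig
import Pool.Agent.H27.Lin.Dual

/-!
# The width of the Frobenius eigenvalues is at most the dimension
-/

set_option autoImplicit false
set_option linter.unusedSectionVars false
set_option linter.unusedVariables false

open CategoryTheory AlgebraicGeometry

universe u v w w'

namespace Pool.Agent.H27.P

open Polynomial Module Pool.Agent.H914 Pool.Agent.H914.VarClass Pool.Agent.H914.VarClass.Obj
  Pool.Agent.W492.BB Pool.Agent.W550.Corr Pool.Agent.TH133 Pool.Agent.W484.CH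
  Pool.Agent.Q56.CP Pool.Agent.Q56.FR
open Pool.Agent.H27.K3 (IsWeil lam_dual)
open Pool.Agent.H27.Lin (lam_nonneg integral_conj)
open Pool.Agent.Q56.FD (sl)

open Pool.Agent.Q56.FD (Qb)

variable {k : Type u} [Field k] {𝒱 : VarClass k}
variable {C : TheoryData.{u, v, 0} 𝒱 ℚ} {K : Type w}
  [Field K] [CharZero K] {H : WeilTheoryData.{u, v, w} C K} [hC : IsChowProj C]
  [hH : IsWeilProj H] {X : 𝒱.Obj} {f : X ⟶ X} {q : ℕ}

lemma tr_pow (hf : IsFrobenius C f q) (m : ℕ) (u w : H.A X) :
    H.tr X (((hF H f) ^ m) u * ((hF H f) ^ m) w) = ((q : K) ^ X.dim) ^ m * H.tr X (u * w) := by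
  induction m with
  | zero => simp
  | succ m ih =>
    rw [pow_succ', Module.End.mul_apply, Module.End.mul_apply, hF_apply, hF_apply, ← map_mul,
      tr_frob hf, ih, pow_succ']
    ring

lemma hF_injective (hq : 0 < q) (hf : IsFrobenius C f q) : Function.Injective (hF H f) := by
  rw [injective_iff_map_eq_zero]
  intro u hu
  apply H.nondeg
  intro w
  have h1 := tr_pow hf 1 u w
  rw [pow_one, hu, zero_mul, map_zero] at h1
  have h2 : ((q : K) ^ X.dim) ^ 1 ≠ 0 := by
    have : (q : K) ≠ 0 := by exact_mod_cast hq.ne'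
    positivity
  exact (mul_eq_zero.1 h1.symm).resolve_left h2

/-- the dual polynomial -/
noncomputable def dualPoly (q d : ℕ) (P : ℤ[X]) : ℤ[X] :=
  ∑ k ∈ Finset.range (P.natDegree + 1),
    Polynomial.C (P.coeff k * ((q : ℤ) ^ d) ^ k) * Polynomial.X ^ (P.natDegree - k)

/-- **Poincare duality for the eigenvalues.** -/
theorem dual_kills [Module.Finite K (H.A X)] (hq : 0 < q) (hf : IsFrobenius C f q) {i i' : ℕ}
    (hii : i + i' = 2 * X.dim) {P : ℤ[X]}
    (hP : ∀ x ∈ H.gr X i', aeval (hF H f) P x = 0) {x : H.A X} (hx : x ∈ H.gr X i) :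
    aeval (hF H f) (dualPoly q X.dim P) x = 0 := by
  set φ := hF H f with hφ
  set n := P.natDegree with hn
  have hsurj : Function.Surjective (φ ^ n) := by
    have h1 : Function.Surjective φ := LinearMap.surjective_of_injective (hF_injective hq hf)
    rw [Module.End.coe_pow]
    exact h1.iterate n
  have hmem : ∀ (m : ℕ) {j : ℤ} {y : H.A X}, y ∈ H.gr X j → (φ ^ m) y ∈ H.gr X j := by
    intro m j y hy
    induction m with
    | zero => exact hy
    | succ m ih =>
      rw [pow_succ', Module.End.mul_apply]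
      exact H.pull_mem f ih
  have e1 : ∀ (c : ℤ) (m : ℕ), aeval φ (Polynomial.C c * Polynomial.X ^ m) x =
      (c : K) • (φ ^ m) x := by
    intro c m
    rw [_root_.map_mul, aeval_C, map_pow, aeval_X, Module.End.mul_apply]
    exact (Int.cast_smul_eq_zsmul K c _).symm
  apply H.nondeg
  intro w
  obtain ⟨w, rfl⟩ := hsurj w
  refine homog_induction H.toTheoryData
    (p := fun w => H.tr X (aeval φ (dualPoly q X.dim P) x * (φ ^ n) w) = 0) ?_ ?_ w
  · intro j w hw
    have h1 : H.tr X (aeval φ (dualPoly q X.dim P) x * (φ ^ n) w) =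
        ∑ k ∈ Finset.range (n + 1), ((q : K) ^ X.dim) ^ n * ((P.coeff k : K) *
          H.tr X (x * (φ ^ k) w)) := by
      rw [dualPoly, map_sum, LinearMap.sum_apply, Finset.sum_mul, map_sum]
      refine Finset.sum_congr rfl fun k hk => ?_
      have hkn : k ≤ n := Nat.lt_succ_iff.1 (Finset.mem_range.1 hk)
      rw [e1, smul_mul_assoc, map_smul, smul_eq_mul]
      have h2 : (φ ^ n) w = (φ ^ (n - k)) ((φ ^ k) w) := by
        rw [← Module.End.mul_apply, ← pow_add, Nat.sub_add_cancel hkn]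
      rw [h2, tr_pow hf]
      push_cast
      have h3 : ((q : K) ^ X.dim) ^ n = ((q : K) ^ X.dim) ^ k * ((q : K) ^ X.dim) ^ (n - k) := by
        rw [← pow_add, Nat.add_sub_cancel' hkn]
      rw [h3, ← hn]
      ring
    rw [h1]
    by_cases hj : j = i'
    · have h2 : ∑ k ∈ Finset.range (n + 1), ((q : K) ^ X.dim) ^ n * ((P.coeff k : K) *
          H.tr X (x * (φ ^ k) w)) = ((q : K) ^ X.dim) ^ n * H.tr X (x * aeval φ P w) := by
        rw [aeval_eq_sum_range, LinearMap.sum_apply, Finset.mul_sum, map_sum, Finset.mul_sum]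
        refine Finset.sum_congr rfl fun k hk => ?_
        rw [LinearMap.smul_apply, mul_smul_comm, ← Int.cast_smul_eq_zsmul K, map_smul,
          smul_eq_mul]
      rw [h2, hP w (hj ▸ hw), mul_zero, map_zero, mul_zero]
    · refine Finset.sum_eq_zero fun k _ => ?_
      rw [hH.tr_eq_zero X (i + j) _ (H.mul_mem hx (hmem k hw)) (by
        intro h
        apply hj
        have : ((i + i' : ℕ) : ℤ) = 2 * X.dim := by rw [hii]; push_cast; ring
        push_cast at this
        linarith), mul_zero, mul_zero]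
  · intro b c hb hc
    rw [map_add, mul_add, map_add, hb, hc, add_zero]

lemma aeval_dualPoly (q d : ℕ) {P : ℤ[X]} {α : Qb} (hα : α ≠ 0) :
    aeval α (dualPoly q d P) = α ^ P.natDegree * aeval (((q : Qb) ^ d) / α) P := by
  rw [dualPoly, map_sum, aeval_eq_sum_range, Finset.mul_sum]
  refine Finset.sum_congr rfl fun k hk => ?_
  have hkn : k ≤ P.natDegree := Nat.lt_succ_iff.1 (Finset.mem_range.1 hk)
  rw [map_mul, aeval_C, map_pow, aeval_X, zsmul_eq_mul, div_pow]
  have h3 : α ^ P.natDegree = α ^ k * α ^ (P.natDegree - k) := by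
    rw [← pow_add, Nat.add_sub_cancel' hkn]
  rw [h3, eq_intCast (algebraMap ℤ Qb)]
  push_cast
  field_simp

variable {Fr : ∀ X : 𝒱.Obj, X ⟶ X} {p a : ℕ} [Fact p.Prime] {ι : Qb →+* PadicAlgCl p}
  {lam : Qb → ℚ} {Z : 𝒱.Obj}

/-- the slopes of the eigenvalues -/
theorem Occurs.slopes (ha : 0 < a) (hFr : FrobTheory H Fr (p ^ a))
    (hlam : ∀ z, (lam z : ℝ) = sl (p ^ a) ι z) {i : ℕ} (hi : i ≤ 2 * Z.dim) {α : Qb}
    (ho : Occurs H (Fr Z) i α) : |2 * lam α - i| ≤ Z.dim := by
  have hfin := hFr.finite Z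
  have hq : 0 < p ^ a := pow_pos (Fact.out : p.Prime).pos a
  have key : ∀ α, Occurs H (Fr Z) i α → 0 ≤ lam α ∧ lam α ≤ Z.dim := by
    intro α ho
    have hα : IsWeil (p ^ a) i α := ho.weil hFr
    have hα0 : α ≠ 0 := hα.ne_zero hq
    constructor
    · obtain ⟨P, hP, hk, -⟩ := hFr.weil Z i
      exact lam_nonneg ha hlam ⟨P, hP, by
        have h1 := ho P hk
        rwa [aeval_def] at h1⟩
    · obtain ⟨P, hP, hk, -⟩ := hFr.weil Z (2 * Z.dim - i)
      have h1 := ho (dualPoly (p ^ a) Z.dim P) (annihilates_iff.2 fun x hx =>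
        dual_kills hq (hFr.frobenius Z) (i := i) (i' := 2 * Z.dim - i) (by omega)
          (annihilates_iff.1 hk) hx)
      rw [aeval_dualPoly _ _ hα0, mul_eq_zero] at h1
      have h2 := h1.resolve_left (pow_ne_zero _ hα0)
      have h3 := lam_nonneg ha hlam (z := ((p ^ a : ℕ) : Qb) ^ Z.dim / α) ⟨P, hP, by
        rwa [aeval_def] at h2⟩
      rw [lam_dual ha hlam hα0] at h3
      linarith
  have hα : IsWeil (p ^ a) i α := ho.weil hFr
  have h1 := key α ho
  have h2 := key _ (ho.conj (hα.dual hq))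
  rw [lam_dual ha hlam (hα.ne_zero hq)] at h2
  rw [abs_le]
  constructor <;> linarith [h1.1, h1.2, h2.1, h2.2]

/-- **The width is at most the dimension.** -/
theorem width_le_dim (ha : 0 < a) (hFr : FrobTheory H Fr (p ^ a))
    (hlam : ∀ z, (lam z : ℝ) = sl (p ^ a) ι z) (Z : 𝒱.Obj) : HasWidthAtMost H Fr lam Z.dim Z := by
  intro i
  rcases le_or_gt i (2 * Z.dim) with hi | hi
  · obtain ⟨P₀, hP₀, hk, -⟩ := hFr.weil Z i
    obtain ⟨P, h1, h2, h3⟩ := exists_minimal (hF H (Fr Z)) (H.gr Z i) hP₀.ne_zero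
      (annihilates_iff.1 hk)
    exact ⟨P, h1, annihilates_iff.2 h2, fun α hα => Occurs.slopes ha hFr hlam hi fun P' hP' =>
      h3 α (isZero_iff.1 hα) P' (annihilates_iff.1 hP')⟩
  · refine ⟨1, one_ne_zero, annihilates_iff.2 fun x hx => ?_, fun α hα => ?_⟩
    · rw [gr_top H (by exact_mod_cast hi), Submodule.mem_bot] at hx
      rw [hx]
      exact map_zero _
    · rw [isZero_iff, map_one] at hα
      exact absurd hα one_ne_zero

end Pool.Agent.H27.P
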