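import Pool.Agent.H27.P.Vanish
import Pool.Agent.H27.P.Width
import Pool.Agent.H27.Ab.Average

/-!
# Parshin's conjecture from few factors
-/

set_option autoImplicit false
set_option linter.unusedSectionVars false
set_option linter.unusedVariables false

open CategoryTheory AlgebraicGeometry

universe u v w w' w''

namespace Pool.Agent.H27.P

open Polynomial Module Pool.Agent.H914 Pool.Agent.H914.VarClass Pool.Agent.H914.VarClass.Obj
  Pool.Agent.W492.BB Pool.Agent.W550.Corr Pool.Agent.TH133 Pool.Agent.W484.CH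
  Pool.Agent.Q56.CP Pool.Agent.Q56.FR
open Pool.Agent.H27.K3 (IsWeil IsK3Type)
open Pool.Agent.H27.Lin (MeetInReal)
open Pool.Agent.H27.Ab
open Pool.Agent.Q56.FD (sl)

open Pool.Agent.Q56.FD (Qb)

variable {k : Type u} [Field k] {𝒱 : VarClass k}
variable {C : TheoryData.{u, v, 0} 𝒱 ℚ} {K : Type w}
  [Field K] [CharZero K] {H : WeilTheoryData.{u, v, w} C K} [hC : IsChowProj C]
  [hH : IsWeilProj H] {Fr : ∀ X : 𝒱.Obj, X ⟶ X} {p a : ℕ} [Fact p.Prime] {ι : Qb →+* PadicAlgCl p}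
  {lam : Qb → ℚ} {I : Type w'} {w : I → ℕ} {γ : I → Qb} {𝒞 : I → ℕ → Set 𝒱.Obj} {Z : 𝒱.Obj}

/-- **Numbers in cells.** -/
theorem parshin_cells (ha : 0 < a) (hFr : FrobTheory H Fr (p ^ a))
    (hlam : ∀ z, (lam z : ℝ) = sl (p ^ a) ι z) (hw : ∀ t, IsWeil (p ^ a) (w t) (γ t))
    {J : Type*} {cell : I × Qb → J} (hf : HasFlips (p ^ a) w γ cell)
    (h1 : OnePairPerCell lam (p ^ a) w γ cell) {c : I → ℚ} (hc : IsWidth lam w γ c)
    (hnum : ∀ t r, ∀ Y ∈ 𝒞 t r, HasNumbers H Fr (p ^ a) w γ 𝒞 Y)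
    (hpair : ∀ t r r', ∀ Y ∈ 𝒞 t r, ∀ Y' ∈ 𝒞 t r', TateNil H Fr (p ^ a) (Y.prod Y'))
    (hZ : Nil H Z) {D : ℚ} (hD : HasWidthAtMost H Fr lam D Z) (T : Pure C Fr (p ^ a))
    (hvan : ∀ V ∈ productsWith 𝒞 (IsShortOnAverage lam w γ c D) Z, Vanishes T V) :
    ∀ V, SumFactor C (productsWith 𝒞 (fun _ => True) Z) V → Vanishes T V :=
  vanishes_few ha hFr hw (fun t => by exact_mod_cast width_ne ha hlam hw hc t) hnum hpair hZ T hvan
    fun i β ho L hL hex hno => isShortOnAverage ha hlam hw hf h1 hc (ho.weil hFr)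
      (fun β' hβ' => (ho.conj hβ').mem hD) hL hex hno

/-- **The main theorem.** -/
theorem parshin_main (ha : 0 < a) (hFr : FrobTheory H Fr (p ^ a))
    (hlam : ∀ z, (lam z : ℝ) = sl (p ^ a) ι z) (hw : ∀ t, IsWeil (p ^ a) (w t) (γ t))
    {c : I → ℚ} (hc : IsWidth lam w γ c)
    (h : PairFlips (p ^ a) w γ ∨ ((∀ t, IsK3Type lam (p ^ a) (w t) (γ t)) ∧ MeetInReal γ))
    (hnum : ∀ t r, ∀ Y ∈ 𝒞 t r, HasNumbers H Fr (p ^ a) w γ 𝒞 Y)
    (hpair : ∀ t r r', ∀ Y ∈ 𝒞 t r, ∀ Y' ∈ 𝒞 t r', TateNil H Fr (p ^ a) (Y.prod Y'))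
    (hZ : Nil H Z) {D : ℚ} (hD : HasWidthAtMost H Fr lam D Z) (T : Pure C Fr (p ^ a))
    (hvan : ∀ V ∈ productsWith 𝒞 (IsShortOnAverage lam w γ c D) Z, Vanishes T V) :
    ∀ V, SumFactor C (productsWith 𝒞 (fun _ => True) Z) V → Vanishes T V := by
  have hq : 0 < p ^ a := pow_pos (Fact.out : p.Prime).pos a
  rcases h with h | ⟨h3, h⟩
  · exact parshin_cells ha hFr hlam hw (hasFlips_pairs hq hw h) onePair_pairs hc hnum hpair hZ hD T
      hvan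
  · exact parshin_cells ha hFr hlam hw (hasFlips_k3 hq hw h) (onePair_k3 hq hw h3) hc hnum hpair
      hZ hD T hvan

end Pool.Agent.H27.P
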