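import Pool.Agent.H27.P.SqDefs
import Pool.Agent.H27.AH.Pair
import Pool.Agent.H27.AH.Field

/-!
# Quadratic numbers
-/

set_option autoImplicit false

namespace Pool.Agent.H27.P

open Pool.Agent.H27.K3 IntermediateField Polynomial
open Pool.Agent.H27.AH (exists_flip)

/-- the conjugates of a quadratic number -/
lemma conj_quadratic {g y : Qb} (h2 : (minpoly ℚ g).natDegree = 2) (hy : IsConjRoot ℚ g y) :
    ∃ b : ℚ, y = g ∨ y = (b : Qb) - g := by
  have hm := minpoly.monic (Algebra.IsIntegral.isIntegral (R := ℚ) g)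
  have h1 : ∀ x : Qb, aeval x (minpoly ℚ g) = 0 →
      x ^ 2 + ((minpoly ℚ g).coeff 1 : Qb) * x + ((minpoly ℚ g).coeff 0 : Qb) = 0 := by
    intro x hx
    rw [aeval_eq_sum_range, h2, Finset.sum_range_succ, Finset.sum_range_succ,
      Finset.sum_range_one] at hx
    have h3 : (minpoly ℚ g).coeff 2 = 1 := by
      rw [← h2]
      exact hm
    rw [h3] at hx
    simp only [Rat.smul_def, pow_zero, pow_one, mul_one, Rat.cast_one, one_mul] at hx
    linear_combination hx
  have h3 := h1 g (minpoly.aeval ℚ g)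
  have h4 := h1 y (by
    have h5 : minpoly ℚ g = minpoly ℚ y := hy
    rw [h5]
    exact minpoly.aeval ℚ y)
  refine ⟨-(minpoly ℚ g).coeff 1, ?_⟩
  have h5 : (y - g) * (y - (((-(minpoly ℚ g).coeff 1 : ℚ) : Qb) - g)) = 0 := by
    push_cast
    linear_combination h4 - h3
  rcases mul_eq_zero.1 h5 with h6 | h6
  · exact Or.inl (sub_eq_zero.1 h6)
  · exact Or.inr (sub_eq_zero.1 h6)

lemma conj_mem {g y : Qb} (h2 : (minpoly ℚ g).natDegree = 2) (hy : IsConjRoot ℚ g y) :
    y ∈ ℚ⟮g⟯ := by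
  obtain ⟨b, h | h⟩ := conj_quadratic h2 hy
  · rw [h]
    exact mem_adjoin_simple_self ℚ g
  · rw [h]
    refine sub_mem ?_ (mem_adjoin_simple_self ℚ g)
    have h3 := (ℚ⟮g⟯).algebraMap_mem b
    rwa [eq_ratCast] at h3

lemma adjoin_eq_of_mem {g x : Qb} (h2 : (minpoly ℚ g).natDegree = 2) (hx : x ∈ ℚ⟮g⟯)
    (hx0 : x ∉ (⊥ : IntermediateField ℚ Qb)) : ℚ⟮x⟯ = ℚ⟮g⟯ := by
  have hfin : FiniteDimensional ℚ ℚ⟮g⟯ :=
    adjoin.finiteDimensional (Algebra.IsIntegral.isIntegral g)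
  have hfin' : FiniteDimensional ℚ ℚ⟮x⟯ :=
    adjoin.finiteDimensional (Algebra.IsIntegral.isIntegral x)
  refine eq_of_le_of_finrank_le ?_ ?_
  · rw [adjoin_simple_le_iff]
    exact hx
  · rw [adjoin.finrank (Algebra.IsIntegral.isIntegral g), h2]
    have h1 : Module.finrank ℚ ℚ⟮x⟯ ≠ 1 := fun h => hx0 (finrank_adjoin_simple_eq_one_iff.1 h)
    have h3 : 0 < Module.finrank ℚ ℚ⟮x⟯ := Module.finrank_pos
    omega

/-- **Quadratic numbers.** -/
theorem flips_of_quadratic {I : Type*} {lam : Qb → ℚ} {q : ℕ} {w : I → ℕ} {γ : I → Qb}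
    (hq : 0 < q) (hw : ∀ t, IsWeil q (w t) (γ t)) (h2 : ∀ t, (minpoly ℚ (γ t)).natDegree = 2)
    (hne : ∀ s t, s ≠ t → γ s ∉ Subfield.closure {γ t}) : FlipsPairwise lam q w γ := by
  classical
  intro s t y z hy hz hst
  have hdual : IsConjRoot ℚ z ((q : Qb) ^ w t / z) := ((hw t).conj hz).dual hq
  by_cases h0 : (q : Qb) ^ w t / z = z
  · exact ⟨RingHom.id Qb, h0.symm, rfl⟩
  by_cases h1 : s = t
  · exfalso
    obtain ⟨h3, h4, -⟩ := hst h1
    subst h1
    have h5 : minpoly ℚ (γ s) = minpoly ℚ z := hz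
    have hz2 : (minpoly ℚ z).natDegree = 2 := by rw [← h5, h2]
    have hsub : ({z, (q : Qb) ^ w s / z, y} : Finset Qb) ⊆ H27.Lin.cj (γ s) := by
      intro x hx
      rw [Finset.mem_insert, Finset.mem_insert, Finset.mem_singleton] at hx
      rw [H27.Lin.mem_cj]
      rcases hx with rfl | rfl | rfl
      · exact hz
      · exact hz.trans hdual
      · exact hy
    have hcard := Finset.card_le_card hsub
    rw [H27.Lin.card_cj, h2, Finset.card_insert_of_notMem, Finset.card_insert_of_notMem,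
      Finset.card_singleton] at hcard
    · omega
    · rw [Finset.mem_singleton]
      exact h4.symm
    · rw [Finset.mem_insert, Finset.mem_singleton, not_or]
      exact ⟨fun h => h0 h.symm, h3.symm⟩
  · obtain ⟨κ, hκ⟩ := isConjRoot_iff_exists_algEquiv.1 hdual.symm
    obtain ⟨σ, hσ, hσ'⟩ := exists_flip κ z (γ s) (by
      intro x hx hx'
      have hadj : IntermediateField.adjoin ℚ {y | IsConjRoot ℚ (γ s) y} ≤ ℚ⟮γ s⟯ :=
        adjoin_le_iff.2 fun y hy => conj_mem (h2 s) hy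
      by_cases hx0 : x ∈ (⊥ : IntermediateField ℚ Qb)
      · obtain ⟨r, rfl⟩ := mem_bot.1 hx0
        exact κ.commutes r
      · exfalso
        have hz2 : (minpoly ℚ z).natDegree = 2 := by
          have h5 : minpoly ℚ (γ t) = minpoly ℚ z := hz
          rw [← h5, h2]
        have e1 := adjoin_eq_of_mem hz2 hx hx0
        have e2 := adjoin_eq_of_mem (h2 s) (hadj hx') hx0
        apply hne s t h1
        apply H27.AH.mem_closure_of_mem_adjoin
        have h6 : γ s ∈ ℚ⟮z⟯ := by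
          rw [← e1, e2]
          exact mem_adjoin_simple_self ℚ _
        have h7 : ℚ⟮z⟯ ≤ ℚ⟮γ t⟯ := by
          rw [adjoin_simple_le_iff]
          exact conj_mem (h2 t) hz
        exact h7 h6)
    exact ⟨(σ : Qb →+* Qb), hσ.trans hκ, hσ' y hy⟩

end Pool.Agent.H27.P
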