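import Pool.Agent.H27.P.SqDefs
import Pool.Agent.H27.AH.Pair
import Pool.Agent.H27.Ab.Average

/-!
# Second moments of the slopes of the letters of a relation
-/

set_option autoImplicit false
set_option linter.unusedSectionVars false
set_option linter.unusedVariables false

namespace Pool.Agent.H27.P

open Pool.Agent.Q56.FD hiding Qb
open Pool.Agent.H27.K3 Pool.Agent.H27.Lin Pool.Agent.H27.Two Pool.Agent.H27.Ab IntermediateField
open Pool.Agent.H27.AH (count_emb sum_trans exists_normal_field)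

variable {I : Type*} {q : ℕ} {lam : Qb → ℚ} {w : I → ℕ} {γ : I → Qb}

/-- the properties of the numbers -/
structure SqGood (lam : Qb → ℚ) (q : ℕ) (w : I → ℕ) (γ : I → Qb) : Prop where
  pos : 0 < q
  weil : ∀ t, IsWeil q (w t) (γ t)
  dual : ∀ (t : I) (z : Qb), IsConjRoot ℚ (γ t) z →
    2 * lam ((q : Qb) ^ w t / z) - w t = -(2 * lam z - w t)
  flips : FlipsPairwise lam q w γ

lemma map_dual (τ : Qb ≃ₐ[ℚ] Qb) (n : ℕ) (z : Qb) : τ ((q : Qb) ^ n / z) = (q : Qb) ^ n / τ z := by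
  rw [map_div₀, map_pow, map_natCast]

/-- two letters of a type of K3 type -/
lemma SqGood.k3 (h : SqGood lam q w γ) {t : I} (h3 : IsK3Type lam q (w t) (γ t)) {y z : Qb}
    (hy : IsConjRoot ℚ (γ t) y) (hz : IsConjRoot ℚ (γ t) z) (h1 : y ≠ z)
    (h2 : y ≠ (q : Qb) ^ w t / z) (τ : Qb ≃ₐ[ℚ] Qb) (h4 : 2 * lam (τ z) ≠ w t) :
    2 * lam (τ y) = w t := by
  by_contra h5
  have hq0 : ((q : Qb) ^ w t) ≠ 0 := pow_ne_zero _ (by exact_mod_cast h.pos.ne')
  have key : ∀ x, IsConjRoot ℚ (γ t) x → 2 * lam (τ x) ≠ w t →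
      τ x = γ t ∨ τ x = (q : Qb) ^ w t / γ t := by
    intro x hx h4
    by_contra h5
    rw [not_or] at h5
    exact h4 (h3.2 _ (hx.trans (isConjRoot_of_algEquiv x τ)) h5.1 h5.2)
  rcases key z hz h4 with h6 | h6 <;> rcases key y hy h5 with h7 | h7
  · exact h1 (τ.injective (h7.trans h6.symm))
  · refine h2 (τ.injective ?_)
    rw [map_dual, h6, h7]
  · refine h2 (τ.injective ?_)
    rw [map_dual, h6, h7, div_div_cancel₀ hq0]
  · exact h1 (τ.injective (h7.trans h6.symm))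

section Sums

variable (E : IntermediateField ℚ Qb) [FiniteDimensional ℚ E]
  (hN : ∀ (σ : Qb ≃ₐ[ℚ] Qb), ∀ x ∈ E, σ x ∈ E)

/-- the mean value over the embeddings -/
lemma mean {a z : Qb} (hE : ∀ z, IsConjRoot ℚ a z → z ∈ E) (hz : IsConjRoot ℚ a z) (f : Qb → ℚ) :
    (minpoly ℚ a).natDegree * ∑ e : E →ₐ[ℚ] Qb, f (lft E e z) =
      Fintype.card (E →ₐ[ℚ] Qb) * ∑ ζ ∈ cj a, f ζ := by
  classical
  have h1 : ∀ e : E →ₐ[ℚ] Qb, f (lft E e z) =
      ∑ ζ ∈ cj a, (if lft E e z = ζ then (1 : ℚ) else 0) * f ζ := by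
    intro e
    rw [Finset.sum_eq_single (lft E e z), if_pos rfl, one_mul]
    · intro ζ _ hζ
      rw [if_neg hζ.symm, zero_mul]
    · intro h
      exact absurd (mem_cj.2 (hz.trans (isConjRoot_of_algEquiv z _))) h
  rw [Finset.sum_congr rfl fun e _ => h1 e, Finset.sum_comm, Finset.mul_sum, Finset.mul_sum]
  refine Finset.sum_congr rfl fun ζ hζ => ?_
  have hζ' : IsConjRoot ℚ a ζ := mem_cj.1 hζ
  have h2 := count_emb E (a := ζ) (z := z) (fun x hx => hE x (hζ'.trans hx)) (hζ'.symm.trans hz)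
  have h3 : minpoly ℚ ζ = minpoly ℚ a := hζ'.symm
  rw [h3] at h2
  rw [← Finset.sum_mul, ← mul_assoc, ← h2]

include hN in
/-- the sum of an odd function vanishes -/
lemma sum_flip (F : (Qb ≃ₐ[ℚ] Qb) → ℚ)
    (hF : ∀ τ τ' : Qb ≃ₐ[ℚ] Qb, (∀ x ∈ E, τ x = τ' x) → F τ = F τ') (σ : Qb →+* Qb)
    (hσ : ∀ τ : Qb ≃ₐ[ℚ] Qb, F ((AlgEquiv.ofBijective σ.toRatAlgHom
      (AlgHom.normal_bijective ℚ Qb Qb _)).trans τ) = - F τ) :
    ∑ e : E →ₐ[ℚ] Qb, F (lft E e) = 0 := by
  have h1 := sum_trans E hN F hF (AlgEquiv.ofBijective σ.toRatAlgHom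
    (AlgHom.normal_bijective ℚ Qb Qb _))
  rw [Finset.sum_congr rfl fun e _ => hσ (lft E e), Finset.sum_neg_distrib] at h1
  linarith

include hN in
/-- **The correlation of two letters.** -/
theorem SqGood.corr (h : SqGood lam q w γ) {l l' : I × Qb} (hl : IsConjRoot ℚ (γ l.1) l.2)
    (hl' : IsConjRoot ℚ (γ l'.1) l'.2) (hE : l.2 ∈ E) (hE' : l'.2 ∈ E) (hne : l' ≠ l)
    (hnd : l' ≠ (l.1, (q : Qb) ^ w l.1 / l.2)) :
    ∑ e : E →ₐ[ℚ] Qb, (2 * lam (lft E e l.2) - w l.1) * (2 * lam (lft E e l'.2) - w l'.1) = 0 := by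
  classical
  obtain ⟨t, z⟩ := l
  obtain ⟨s, y⟩ := l'
  by_cases hk : s = t ∧ IsK3Type lam q (w t) (γ t)
  · obtain ⟨rfl, h3⟩ := hk
    refine Finset.sum_eq_zero fun e _ => ?_
    by_cases h0 : 2 * lam (lft E e z) = w s
    · change (2 * lam (lft E e z) - w s) * _ = 0
      rw [h0, sub_self, zero_mul]
    · have h1 := h.k3 h3 hl' hl (fun h5 => hne (Prod.ext rfl h5)) (fun h5 => hnd (Prod.ext rfl h5)) _ h0
      change _ * (2 * lam (lft E e y) - w s) = 0
      rw [h1, sub_self, mul_zero]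
  · obtain ⟨σ, h1, h2⟩ := h.flips s t y z hl' hl (by
      rintro rfl
      exact ⟨fun h5 => hne (Prod.ext rfl h5), fun h5 => hnd (Prod.ext rfl h5),
        fun h3 => hk ⟨rfl, h3⟩⟩)
    refine sum_flip E hN (fun τ => (2 * lam (τ z) - w t) * (2 * lam (τ y) - w s))
      (fun τ τ' hτ => ?_) σ fun τ => ?_
    · rw [hτ z hE, hτ y hE']
    · change (2 * lam (τ (σ z)) - w t) * (2 * lam (τ (σ y)) - w s) = _
      rw [h1, h2, map_dual, h.dual t (τ z) (hl.trans (isConjRoot_of_algEquiv z τ)), neg_mul]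

include hN in
open Classical in
/-- **The conditional mean of a letter.** -/
theorem SqGood.cond (h : SqGood lam q w γ) {l l' : I × Qb} (hl : IsConjRoot ℚ (γ l.1) l.2)
    (hl' : IsConjRoot ℚ (γ l'.1) l'.2) (hE : l.2 ∈ E) (hE' : l'.2 ∈ E) (hne : l' ≠ l)
    (hnd : l' ≠ (l.1, (q : Qb) ^ w l.1 / l.2)) (hnd' : l ≠ (l'.1, (q : Qb) ^ w l'.1 / l'.2))
    {ζ : Qb} (hζ : 2 * lam ζ ≠ w l.1) :
    ∑ e : E →ₐ[ℚ] Qb, (if lft E e l.2 = ζ then (1 : ℚ) else 0) *
      (2 * lam (lft E e l'.2) - w l'.1) = 0 := by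
  obtain ⟨t, z⟩ := l
  obtain ⟨s, y⟩ := l'
  by_cases hk : s = t ∧ IsK3Type lam q (w t) (γ t)
  · obtain ⟨rfl, h3⟩ := hk
    refine Finset.sum_eq_zero fun e _ => ?_
    change (if lft E e z = ζ then (1 : ℚ) else 0) * (2 * lam (lft E e y) - w s) = 0
    by_cases h0 : lft E e z = ζ
    · have h1 := h.k3 h3 hl' hl (fun h5 => hne (Prod.ext rfl h5)) (fun h5 => hnd (Prod.ext rfl h5))
        (lft E e) (by rw [h0]; exact hζ)
      rw [h1, sub_self, mul_zero]
    · rw [if_neg h0, zero_mul]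
  · obtain ⟨σ, h1, h2⟩ := h.flips t s z y hl hl' (by
      rintro rfl
      exact ⟨fun h5 => hne (Prod.ext rfl h5.symm), fun h5 => hnd' (Prod.ext rfl h5),
        fun h3 => hk ⟨rfl, h3⟩⟩)
    refine sum_flip E hN (fun τ => (if τ z = ζ then (1 : ℚ) else 0) * (2 * lam (τ y) - w s))
      (fun τ τ' hτ => ?_) σ fun τ => ?_
    · rw [hτ z hE, hτ y hE']
    · change (if τ (σ z) = ζ then (1 : ℚ) else 0) * (2 * lam (τ (σ y)) - w s) = _
      rw [h1, h2, map_dual, h.dual s (τ y) (hl'.trans (isConjRoot_of_algEquiv y τ)), mul_neg]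

end Sums

lemma meanSquare_eq (lam : Qb → ℚ) (w : ℕ) (γ : Qb) :
    (minpoly ℚ γ).natDegree * meanSquare lam w γ = ∑ z ∈ cj γ, (2 * lam z - w) ^ 2 := by
  have h1 : (0 : ℚ) < (minpoly ℚ γ).natDegree := by exact_mod_cast deg_pos γ
  rw [meanSquare, finsum_cj, mul_div_cancel₀ _ h1.ne']

lemma meanSquare_nonneg (lam : Qb → ℚ) (w : ℕ) (γ : Qb) : 0 ≤ meanSquare lam w γ := by
  rw [meanSquare, finsum_cj]
  exact div_nonneg (Finset.sum_nonneg fun z _ => sq_nonneg _) (Nat.cast_nonneg _)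

lemma sum_list_comm {Λ ν : Type*} [Fintype ν] (R : List Λ) (f : Λ → ν → ℚ) :
    ∑ e, (R.map fun l => f l e).sum = (R.map fun l => ∑ e, f l e).sum := by
  induction R with
  | nil => simp
  | cons l R ih => simp [Finset.sum_add_distrib, ih]

lemma list_mul_sum {Λ : Type*} (R : List Λ) (f : Λ → ℚ) (a : ℚ) :
    a * (R.map f).sum = (R.map fun l => a * f l).sum := by
  induction R with
  | nil => simp
  | cons l R ih => simp [mul_add, ih]

/-- the multiplicity of a letter -/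
noncomputable def ct {Λ : Type*} (R : List Λ) (l : Λ) : ℕ :=
  @List.count _ (@instBEqOfDecidableEq _ (Classical.decEq _)) l R

lemma ct_eq {Λ : Type*} (i : BEq Λ) (hi : @LawfulBEq Λ i) (R : List Λ) (l : Λ) :
    ct R l = @List.count _ i l R := by
  let inst : DecidableEq Λ := Classical.decEq _
  exact count_inst (@instBEqOfDecidableEq _ inst) i inferInstance hi l R

lemma ct_cons {Λ : Type*} (R : List Λ) (l l' : Λ) [Decidable (l' = l)] :
    ct (l' :: R) l = ct R l + if l' = l then 1 else 0 := by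
  unfold ct
  let inst : DecidableEq Λ := Classical.decEq _
  rw [List.count_cons]
  by_cases h : l' = l
  · rw [if_pos h, if_pos (by simpa using h)]
  · rw [if_neg h, if_neg (by simpa using h)]

lemma sum_ite_eq_count {Λ : Type*} (R : List Λ) (l : Λ) (a : ℚ) [∀ l' : Λ, Decidable (l' = l)] :
    (R.map fun l' => if l' = l then a else 0).sum = a * ct R l := by
  induction R with
  | nil => simp [ct]
  | cons l' R ih =>
    rw [List.map_cons, List.sum_cons, ih, ct_cons]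
    by_cases h : l' = l
    · rw [if_pos h, if_pos h]
      push_cast
      ring
    · rw [if_neg h, if_neg h]
      simp

lemma sum_list_ct {Λ : Type*} [DecidableEq Λ] (L : List Λ) (f : Λ → ℚ) :
    (L.map f).sum = ∑ l ∈ L.toFinset, (ct L l : ℚ) * f l := by
  rw [Finset.sum_list_map_count]
  refine Finset.sum_congr rfl fun l _ => ?_
  rw [ct_eq _ inferInstance L l, nsmul_eq_mul]

section Words

variable {L : List (I × Qb)} {D : ℚ}

open Classical in
/-- **The mean square.** -/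
theorem SqGood.square_le (h : SqGood lam q w γ) (hL : ∀ l ∈ L, IsConjRoot ℚ (γ l.1) l.2)
    (hno : NoDual q w L) (hb : ∀ τ : Qb ≃ₐ[ℚ] Qb,
      |(L.map fun l => 2 * lam (τ l.2) - (w l.1 : ℚ)).sum| ≤ D) :
    (L.map fun l => meanSquare lam (w l.1) (γ l.1) * ct L l).sum ≤ D ^ 2 := by
  obtain ⟨E, hfd, hN, hE⟩ := exists_normal_field ((L.map Prod.fst).toFinset.biUnion fun t =>
    cj (γ t))
  have hE' : ∀ l ∈ L, ∀ z, IsConjRoot ℚ (γ l.1) z → z ∈ E := fun l hl z hz =>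
    hE z (Finset.mem_biUnion.2 ⟨l.1, List.mem_toFinset.2 (List.mem_map.2 ⟨l, hl, rfl⟩),
      mem_cj.2 hz⟩)
  have hcard : (0 : ℚ) < Fintype.card (E →ₐ[ℚ] Qb) := by
    exact_mod_cast Fintype.card_pos_iff.2 ⟨E.val⟩
  have h1 : ∑ e : E →ₐ[ℚ] Qb, ((L.map fun l => 2 * lam (lft E e l.2) - (w l.1 : ℚ)).sum) ^ 2 =
      Fintype.card (E →ₐ[ℚ] Qb) *
        (L.map fun l => meanSquare lam (w l.1) (γ l.1) * ct L l).sum := by
    have h2 : ∀ e : E →ₐ[ℚ] Qb, ((L.map fun l => 2 * lam (lft E e l.2) - (w l.1 : ℚ)).sum) ^ 2 =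
        (L.map fun l => (L.map fun l' => (2 * lam (lft E e l.2) - (w l.1 : ℚ)) *
          (2 * lam (lft E e l'.2) - (w l'.1 : ℚ))).sum).sum := by
      intro e
      rw [sq, list_mul_sum]
      refine congrArg List.sum (List.map_congr_left fun l _ => ?_)
      rw [mul_comm, list_mul_sum]
    rw [Finset.sum_congr rfl fun e _ => h2 e, sum_list_comm, list_mul_sum]
    refine congrArg List.sum (List.map_congr_left fun l hl => ?_)
    rw [sum_list_comm]
    have h3 : (L.map fun l' => ∑ e : E →ₐ[ℚ] Qb, (2 * lam (lft E e l.2) - (w l.1 : ℚ)) *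
        (2 * lam (lft E e l'.2) - (w l'.1 : ℚ))) = L.map fun l' =>
          if l' = l then Fintype.card (E →ₐ[ℚ] Qb) * meanSquare lam (w l.1) (γ l.1) else 0 := by
      refine List.map_congr_left fun l' hl' => ?_
      by_cases hll : l' = l
      · subst hll
        rw [if_pos rfl]
        have hd : (0 : ℚ) < (minpoly ℚ (γ l'.1)).natDegree := by
          exact_mod_cast deg_pos (γ l'.1)
        have h4 := mean E (hE' l' hl) (hL l' hl) (fun z => (2 * lam z - (w l'.1 : ℚ)) ^ 2)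
        rw [← meanSquare_eq] at h4
        apply mul_left_cancel₀ hd.ne'
        rw [Finset.sum_congr rfl fun e _ => (sq (2 * lam (lft E e l'.2) - (w l'.1 : ℚ))).symm, h4]
        ring
      · rw [if_neg hll]
        exact h.corr E hN (hL l hl) (hL l' hl') (hE' l hl _ (hL l hl))
          (hE' l' hl' _ (hL l' hl')) hll fun h5 => hno l hl (h5 ▸ hl')
    rw [h3, sum_ite_eq_count, mul_assoc]
  refine le_of_mul_le_mul_left ?_ hcard
  rw [← h1]
  have h3 : ∀ e : E →ₐ[ℚ] Qb,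
      ((L.map fun l => 2 * lam (lft E e l.2) - (w l.1 : ℚ)).sum) ^ 2 ≤ D ^ 2 := fun e =>
    sq_le_sq' (abs_le.1 (hb (lft E e))).1 (abs_le.1 (hb (lft E e))).2
  refine (Finset.sum_le_sum fun e _ => h3 e).trans ?_
  rw [Finset.sum_const, Finset.card_univ, nsmul_eq_mul]

open Classical in
/-- **The multiplicity of a letter is small.** -/
theorem SqGood.count_le (h : SqGood lam q w γ) (hL : ∀ l ∈ L, IsConjRoot ℚ (γ l.1) l.2)
    (hno : NoDual q w L) (hb : ∀ τ : Qb ≃ₐ[ℚ] Qb,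
      |(L.map fun l => 2 * lam (τ l.2) - (w l.1 : ℚ)).sum| ≤ D) {l : I × Qb} (hl : l ∈ L)
    {ζ : Qb} (hζ : IsConjRoot ℚ (γ l.1) ζ) (h0 : 2 * lam ζ ≠ w l.1) :
    (2 * lam ζ - w l.1) * ct L l ≤ D := by
  obtain ⟨E, hfd, hN, hE⟩ := exists_normal_field ((L.map Prod.fst).toFinset.biUnion fun t =>
    cj (γ t))
  have hE' : ∀ l ∈ L, ∀ z, IsConjRoot ℚ (γ l.1) z → z ∈ E := fun l hl z hz =>
    hE z (Finset.mem_biUnion.2 ⟨l.1, List.mem_toFinset.2 (List.mem_map.2 ⟨l, hl, rfl⟩),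
      mem_cj.2 hz⟩)
  have hcard : (0 : ℚ) < Fintype.card (E →ₐ[ℚ] Qb) := by
    exact_mod_cast Fintype.card_pos_iff.2 ⟨E.val⟩
  have hd : (0 : ℚ) < (minpoly ℚ (γ l.1)).natDegree := by exact_mod_cast deg_pos (γ l.1)
  have hmz : minpoly ℚ ζ = minpoly ℚ (γ l.1) := hζ.symm
  have h2 := count_emb E (a := ζ) (z := l.2) (fun x hx => hE' l hl x (hζ.trans hx))
    (hζ.symm.trans (hL l hl))
  rw [hmz] at h2
  have h1 : ∑ e : E →ₐ[ℚ] Qb, (if lft E e l.2 = ζ then (1 : ℚ) else 0) *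
      (L.map fun l' => 2 * lam (lft E e l'.2) - (w l'.1 : ℚ)).sum =
      Fintype.card (E →ₐ[ℚ] Qb) / (minpoly ℚ (γ l.1)).natDegree *
        ((2 * lam ζ - w l.1) * ct L l) := by
    rw [Finset.sum_congr rfl fun e _ => list_mul_sum L _ _, sum_list_comm]
    have h4 : (L.map fun l' => ∑ e : E →ₐ[ℚ] Qb, (if lft E e l.2 = ζ then (1 : ℚ) else 0) *
        (2 * lam (lft E e l'.2) - (w l'.1 : ℚ))) = L.map fun l' =>
          if l' = l then Fintype.card (E →ₐ[ℚ] Qb) / (minpoly ℚ (γ l.1)).natDegree *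
            (2 * lam ζ - w l.1) else 0 := by
      refine List.map_congr_left fun l' hl' => ?_
      by_cases hll : l' = l
      · subst hll
        rw [if_pos rfl]
        have h5 : ∀ e : E →ₐ[ℚ] Qb, (if lft E e l'.2 = ζ then (1 : ℚ) else 0) *
            (2 * lam (lft E e l'.2) - (w l'.1 : ℚ)) =
            (if lft E e l'.2 = ζ then (1 : ℚ) else 0) * (2 * lam ζ - w l'.1) := by
          intro e
          by_cases h6 : lft E e l'.2 = ζ
          · rw [h6]
          · rw [if_neg h6, zero_mul, zero_mul]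
        rw [Finset.sum_congr rfl fun e _ => h5 e, ← Finset.sum_mul]
        congr 1
        rw [eq_div_iff hd.ne', mul_comm, ← h2]
      · rw [if_neg hll]
        refine h.cond E hN (hL l hl) (hL l' hl') (hE' l hl _ (hL l hl))
          (hE' l' hl' _ (hL l' hl')) hll (fun h5 => hno l hl (h5 ▸ hl'))
          (fun h5 => hno l' hl' (h5 ▸ hl)) h0
    rw [h4, sum_ite_eq_count, mul_assoc]
  have h5 : ∑ e : E →ₐ[ℚ] Qb, (if lft E e l.2 = ζ then (1 : ℚ) else 0) *
      (L.map fun l' => 2 * lam (lft E e l'.2) - (w l'.1 : ℚ)).sum ≤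
      ∑ e : E →ₐ[ℚ] Qb, (if lft E e l.2 = ζ then (1 : ℚ) else 0) * D := by
    refine Finset.sum_le_sum fun e _ => mul_le_mul_of_nonneg_left (abs_le.1 (hb (lft E e))).2 ?_
    split_ifs <;> norm_num
  rw [h1, ← Finset.sum_mul] at h5
  have h6 : ∑ e : E →ₐ[ℚ] Qb, (if lft E e l.2 = ζ then (1 : ℚ) else 0) =
      Fintype.card (E →ₐ[ℚ] Qb) / (minpoly ℚ (γ l.1)).natDegree := by
    rw [eq_div_iff hd.ne', mul_comm]
    exact h2
  rw [h6] at h5
  exact le_of_mul_le_mul_left h5 (div_pos hcard hd)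

open Classical in
/-- **The list of types is short.** -/
theorem SqGood.short (h : SqGood lam q w γ) {c : I → ℚ} (hc : IsWidth lam w γ c)
    (hL : ∀ l ∈ L, IsConjRoot ℚ (γ l.1) l.2) (hno : NoDual q w L) (hb : ∀ τ : Qb ≃ₐ[ℚ] Qb,
      |(L.map fun l => 2 * lam (τ l.2) - (w l.1 : ℚ)).sum| ≤ D) :
    IsShortInSquare lam w γ c D (L.map Prod.fst) := by
  have hD : 0 ≤ D := (abs_nonneg _).trans (hb AlgEquiv.refl)
  have hmulti : Multi (fun t => ⌊D / c t⌋₊) L := by
    intro inst l hl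
    obtain ⟨hc0, z, hz, hcz⟩ := hc l.1
    rw [width] at hcz
    -- a conjugate with positive deviation
    obtain ⟨ζ, hζ, h1⟩ : ∃ ζ, IsConjRoot ℚ (γ l.1) ζ ∧ 2 * lam ζ - w l.1 = c l.1 := by
      rcases abs_cases (2 * lam z - (w l.1 : ℚ)) with ⟨h1, -⟩ | ⟨h1, -⟩
      · exact ⟨z, hz, by rw [← hcz, h1]⟩
      · exact ⟨_, hz.trans (((h.weil l.1).conj hz).dual h.pos), by
          rw [h.dual l.1 z hz, ← hcz, h1]⟩
    have h2 := h.count_le hL hno hb hl hζ (by intro h3; rw [h3, sub_self] at h1; linarith)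
    rw [h1] at h2
    refine Nat.le_floor ?_
    rw [le_div_iff₀ hc0, mul_comm]
    rw [ct_eq (@instBEqOfDecidableEq _ inst) inferInstance L l] at h2
    exact h2
  refine ⟨?_, fun t => ?_⟩
  swap
  · exact two_count_of_multi (M := fun t => ⌊D / c t⌋₊) h.pos h.weil hL hno hmulti t
  refine le_trans ?_ (h.square_le hL hno hb)
  -- grouping
  rw [List.map_map, sum_list_ct L (fun l => meanSquare lam (w l.1) (γ l.1) *
    (ct L l : ℚ)), sum_list_ct L]
  have hmaps : ∀ l ∈ L.toFinset, l.1 ∈ (L.map Prod.fst).toFinset := fun l hl =>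
    List.mem_toFinset.2 (List.mem_map.2 ⟨l, List.mem_toFinset.1 hl, rfl⟩)
  rw [← Finset.sum_fiberwise_of_maps_to hmaps, ← Finset.sum_fiberwise_of_maps_to hmaps]
  refine Finset.sum_le_sum fun t _ => ?_
  set S := L.toFinset.filter fun l => l.1 = t with hS
  have hd : (0 : ℚ) < (minpoly ℚ (γ t)).natDegree := by exact_mod_cast deg_pos (γ t)
  -- the number of the letters
  have hn : (((L.map Prod.fst).count t : ℕ) : ℚ) = ∑ l ∈ S, (ct L l : ℚ) := by
    have h1 : ∀ R : List (I × Qb), (((R.map Prod.fst).count t : ℕ) : ℚ) =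
        (R.map fun l => if l.1 = t then (1 : ℚ) else 0).sum := by
      intro R
      induction R with
      | nil => simp
      | cons l R ih =>
        rw [List.map_cons, List.count_cons, List.map_cons, List.sum_cons, ← ih]
        by_cases h1 : l.1 = t
        · rw [if_pos (by simpa using h1), if_pos h1]
          push_cast
          ring
        · rw [if_neg (by simpa using h1), if_neg h1]
          simp
    rw [h1, sum_list_ct L, hS, Finset.sum_filter]
    refine Finset.sum_congr rfl fun l _ => ?_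
    by_cases h2 : l.1 = t
    · rw [if_pos h2, if_pos h2, mul_one]
    · rw [if_neg h2, if_neg h2, mul_zero]
  -- the number of different letters
  have hSc : 2 * S.card ≤ (minpoly ℚ (γ t)).natDegree := by
    have hbar : ∀ l ∈ S, IsConjRoot ℚ (γ t) l.2 ∧ l.1 = t ∧ l ∈ L := by
      intro l hl
      obtain ⟨h1, h2⟩ := Finset.mem_filter.1 hl
      have h3 := List.mem_toFinset.1 h1
      exact ⟨h2 ▸ hL l h3, h2, h3⟩
    let A : Finset Qb := S.image Prod.snd
    let B : Finset Qb := S.image fun l => (q : Qb) ^ w t / l.2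
    have hq0 : ((q : Qb) ^ w t) ≠ 0 := pow_ne_zero _ (by exact_mod_cast h.pos.ne')
    have hA : A.card = S.card := Finset.card_image_of_injOn fun l hl l' hl' hll =>
      Prod.ext ((hbar l hl).2.1.trans (hbar l' hl').2.1.symm) hll
    have hB : B.card = S.card := Finset.card_image_of_injOn fun l hl l' hl' hll =>
      Prod.ext ((hbar l hl).2.1.trans (hbar l' hl').2.1.symm) (by
        have h1 : (q : Qb) ^ w t / l.2 = (q : Qb) ^ w t / l'.2 := hll
        have h2 := congrArg (fun x => (q : Qb) ^ w t / x) h1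
        simpa only [div_div_cancel₀ hq0] using h2)
    have hdisj : Disjoint A B := by
      rw [Finset.disjoint_left]
      intro z hz hz'
      obtain ⟨l, hl, rfl⟩ := Finset.mem_image.1 hz
      obtain ⟨l', hl', h1⟩ := Finset.mem_image.1 hz'
      obtain ⟨-, h2, h3⟩ := hbar l hl
      obtain ⟨-, h4, h5⟩ := hbar l' hl'
      refine hno l' h5 ?_
      rw [h4, show (q : Qb) ^ w t / l'.2 = l.2 from h1, ← h2]
      exact h3
    rw [two_mul]
    nth_rewrite 1 [← hA]
    rw [← hB, ← Finset.card_union_of_disjoint hdisj, ← card_cj]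
    refine Finset.card_le_card (Finset.union_subset ?_ ?_)
    · intro z hz
      obtain ⟨l, hl, rfl⟩ := Finset.mem_image.1 hz
      exact mem_cj.2 (hbar l hl).1
    · intro z hz
      obtain ⟨l, hl, rfl⟩ := Finset.mem_image.1 hz
      exact mem_cj.2 ((hbar l hl).1.trans (((h.weil t).conj (hbar l hl).1).dual h.pos))
  -- the squares
  have hsq1 : ∑ l ∈ S, (ct L l : ℚ) ≤ ∑ l ∈ S, (ct L l : ℚ) ^ 2 := by
    refine Finset.sum_le_sum fun l hl => ?_
    have h1 : 0 < ct L l := by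
      rw [ct_eq _ inferInstance L l]
      exact List.count_pos_iff.2 (List.mem_toFinset.1 (Finset.mem_filter.1 hl).1)
    have h2 : (1 : ℚ) ≤ ct L l := by exact_mod_cast h1
    nlinarith
  have hsq2 : 2 * (∑ l ∈ S, (ct L l : ℚ)) ^ 2 ≤
      (minpoly ℚ (γ t)).natDegree * ∑ l ∈ S, (ct L l : ℚ) ^ 2 := by
    have h8 := sq_sum_le_card_mul_sum_sq (s := S) (f := fun l => ((ct L l : ℕ) : ℚ))
    have h9 : (0 : ℚ) ≤ ∑ l ∈ S, ((ct L l : ℕ) : ℚ) ^ 2 := Finset.sum_nonneg fun _ _ => by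
      positivity
    have h10 : (2 : ℚ) * S.card ≤ (minpoly ℚ (γ t)).natDegree := by exact_mod_cast hSc
    nlinarith
  have hms := meanSquare_nonneg lam (w t) (γ t)
  have e1 : ∑ l ∈ S, (ct L l : ℚ) * ((fun t => meanSquare lam (w t) (γ t) *
      max 1 (2 * (((L.map Prod.fst).count t : ℕ) : ℚ) / (minpoly ℚ (γ t)).natDegree)) ∘
        Prod.fst) l = meanSquare lam (w t) (γ t) * ((∑ l ∈ S, (ct L l : ℚ)) *
          max 1 (2 * (∑ l ∈ S, (ct L l : ℚ)) / (minpoly ℚ (γ t)).natDegree)) := by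
    rw [← hn]
    have h4 : ∀ l ∈ S, (ct L l : ℚ) * ((fun t => meanSquare lam (w t) (γ t) *
        max 1 (2 * (((L.map Prod.fst).count t : ℕ) : ℚ) / (minpoly ℚ (γ t)).natDegree)) ∘
          Prod.fst) l = (ct L l : ℚ) * (meanSquare lam (w t) (γ t) *
        max 1 (2 * (((L.map Prod.fst).count t : ℕ) : ℚ) / (minpoly ℚ (γ t)).natDegree)) := by
      intro l hl
      have h1 : l.1 = t := (Finset.mem_filter.1 hl).2
      rw [Function.comp_apply, h1]
    rw [Finset.sum_congr rfl h4, ← Finset.sum_mul, ← hn]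
    ring
  have e2 : ∑ l ∈ S, (ct L l : ℚ) * (meanSquare lam (w l.1) (γ l.1) * (ct L l : ℚ)) =
      meanSquare lam (w t) (γ t) * ∑ l ∈ S, (ct L l : ℚ) ^ 2 := by
    rw [Finset.mul_sum]
    refine Finset.sum_congr rfl fun l hl => ?_
    have h1 : l.1 = t := (Finset.mem_filter.1 hl).2
    rw [h1]
    ring
  rw [e1, e2]
  refine mul_le_mul_of_nonneg_left ?_ hms
  have h3 : (0 : ℚ) ≤ ∑ l ∈ S, (ct L l : ℚ) := Finset.sum_nonneg fun _ _ => Nat.cast_nonneg _
  rw [mul_max_of_nonneg _ _ h3, mul_one]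
  refine max_le hsq1 ?_
  rw [mul_div_assoc', div_le_iff₀ hd]
  calc _ = 2 * (∑ l ∈ S, (ct L l : ℚ)) ^ 2 := by ring
    _ ≤ _ := hsq2
    _ = _ := by ring

end Words

end Pool.Agent.H27.P
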