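import Pool.Agent.H27.Lin.Defs

/-!
# Complex conjugations which fix one number: definitions
-/

set_option autoImplicit false

namespace Pool.Agent.H27.P

open Pool.Agent.H27.K3

/-- Let `y` and `z` be conjugates of `γ s` and `γ t`, where `s ≠ t`, or `s = t` and `y` is different
from `z` and its complex conjugate `q ^ w t / z` and `γ t` is not of K3 type. Then there is an
automorphism of the field of algebraic numbers which maps `z` to its complex conjugate and fixes
`y`. -/
def FlipsPairwise {I : Type*} (lam : Qb → ℚ) (q : ℕ) (w : I → ℕ) (γ : I → Qb) : Prop :=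
  ∀ (s t : I) (y z : Qb), IsConjRoot ℚ (γ s) y → IsConjRoot ℚ (γ t) z →
    (s = t → y ≠ z ∧ y ≠ (q : Qb) ^ w t / z ∧ ¬IsK3Type lam q (w t) (γ t)) →
      ∃ σ : Qb →+* Qb, σ z = (q : Qb) ^ w t / z ∧ σ y = y

/-- The mean value of `(2 lam z - w) ^ 2` over the conjugates `z` of `γ`. -/
noncomputable def meanSquare (lam : Qb → ℚ) (w : ℕ) (γ : Qb) : ℚ :=
  (∑ᶠ z ∈ {z | IsConjRoot ℚ γ z}, (2 * lam z - w) ^ 2) / (minpoly ℚ γ).natDegree

/-- The list `s` of types is short: the sum of the mean squares of its types `t`, each multiplied with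
the maximum of `1` and `2 n / deg (γ t)`, where `n` is the number of times `t` occurs, is at most
`D ^ 2`, and each type `t` occurs at most `deg (γ t) / 2 * ⌊D / c t⌋` times. -/
def IsShortInSquare {I : Type*} (lam : Qb → ℚ) (w : I → ℕ) (γ : I → Qb) (c : I → ℚ) (D : ℚ)
    (s : List I) : Prop :=
  open Classical in
  (s.map fun t => meanSquare lam (w t) (γ t) *
    max 1 (2 * (s.count t : ℚ) / (minpoly ℚ (γ t)).natDegree)).sum ≤ D ^ 2 ∧
  ∀ t, 2 * s.count t ≤ (minpoly ℚ (γ t)).natDegree * ⌊D / c t⌋₊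

end Pool.Agent.H27.P
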