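import Pool.Agent.H27.P.Vanish
import Pool.Agent.H27.P.Width
import Pool.Agent.H27.P.Sq
import Pool.Agent.H27.P.Quad

/-!
# Parshin's conjecture from few factors, pairwise hypotheses
-/

set_option autoImplicit false
set_option linter.unusedSectionVars false
set_option linter.unusedVariables false

open CategoryTheory AlgebraicGeometry

universe u v w w' w''

namespace Pool.Agent.H27.P

open Polynomial Module Pool.Agent.H914 Pool.Agent.H914.VarClass Pool.Agent.H914.VarClass.Obj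
  Pool.Agent.W492.BB Pool.Agent.W550.Corr Pool.Agent.TH133 Pool.Agent.W484.CH
  Pool.Agent.Q56.CP Pool.Agent.Q56.FR
open Pool.Agent.H27.K3 (IsWeil IsK3Type lam_dual)
open Pool.Agent.H27.Lin (relation_slopes)
open Pool.Agent.H27.Two (IsExact)
open Pool.Agent.H27.Ab
open Pool.Agent.Q56.FD (sl)

open Pool.Agent.Q56.FD (Qb)

lemma sqGood {p a : ℕ} [Fact p.Prime] {ι : Qb →+* PadicAlgCl p} {lam : Qb → ℚ} {I : Type*}
    {w : I → ℕ} {γ : I → Qb} (ha : 0 < a) (hlam : ∀ z, (lam z : ℝ) = sl (p ^ a) ι z)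
    (hw : ∀ t, IsWeil (p ^ a) (w t) (γ t)) (h : FlipsPairwise lam (p ^ a) w γ) :
    SqGood lam (p ^ a) w γ where
  pos := pow_pos (Fact.out : p.Prime).pos a
  weil := hw
  dual t z hz := by
    have hz0 : z ≠ 0 := ((hw t).conj hz).ne_zero (pow_pos (Fact.out : p.Prime).pos a)
    rw [lam_dual ha hlam hz0]
    ring
  flips := h

/-- **Relations are short.** -/
theorem shortInSquare {p a : ℕ} [Fact p.Prime] {ι : Qb →+* PadicAlgCl p} {lam : Qb → ℚ}
    {I : Type*} {w : I → ℕ} {γ : I → Qb} (ha : 0 < a)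
    (hlam : ∀ z, (lam z : ℝ) = sl (p ^ a) ι z) (hw : ∀ t, IsWeil (p ^ a) (w t) (γ t))
    (h : FlipsPairwise lam (p ^ a) w γ) {c : I → ℚ} (hc : IsWidth lam w γ c) {β : Qb} {i : ℕ}
    (hβ : IsWeil (p ^ a) i β) {D : ℚ}
    (hD : ∀ β', IsConjRoot ℚ β β' → |2 * lam β' - i| ≤ D)
    {L : List (I × Qb)} (hL : ∀ l ∈ L, IsConjRoot ℚ (γ l.1) l.2)
    (hex : IsExact (p ^ a) w i β L) (hno : H27.Lin.NoDual (p ^ a) w L) :
    IsShortInSquare lam w γ c D (L.map Prod.fst) := by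
  refine (sqGood ha hlam hw h).short hc hL hno fun τ => ?_
  obtain ⟨j, hprod, hdeg⟩ := hex
  have h2 := relation_slopes ha hlam hw hβ hL hprod hdeg τ
  have h3 := hD (τ β) (isConjRoot_of_algEquiv β τ)
  have h4 : (L.map fun l => 2 * lam (τ l.2) - (w l.1 : ℚ)).sum = -(2 * lam (τ β) - (i : ℚ)) := by
    linarith
  rw [h4, abs_neg]
  exact h3

variable {k : Type u} [Field k] {𝒱 : VarClass k}
variable {C : TheoryData.{u, v, 0} 𝒱 ℚ} {K : Type w}
  [Field K] [CharZero K] {H : WeilTheoryData.{u, v, w} C K} [hC : IsChowProj C]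
  [hH : IsWeilProj H] {Fr : ∀ X : 𝒱.Obj, X ⟶ X} {p a : ℕ} [Fact p.Prime] {ι : Qb →+* PadicAlgCl p}
  {lam : Qb → ℚ} {I : Type w'} {w : I → ℕ} {γ : I → Qb} {𝒞 : I → ℕ → Set 𝒱.Obj} {Z : 𝒱.Obj}

/-- **Pairwise hypotheses.** -/
theorem parshin_pairwise (ha : 0 < a) (hFr : FrobTheory H Fr (p ^ a))
    (hlam : ∀ z, (lam z : ℝ) = sl (p ^ a) ι z) (hw : ∀ t, IsWeil (p ^ a) (w t) (γ t))
    {c : I → ℚ} (hc : IsWidth lam w γ c)
    (h : FlipsPairwise lam (p ^ a) w γ ∨ ((∀ t, (minpoly ℚ (γ t)).natDegree = 2) ∧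
      ∀ s t, s ≠ t → γ s ∉ Subfield.closure {γ t}))
    (hnum : ∀ t r, ∀ Y ∈ 𝒞 t r, HasNumbers H Fr (p ^ a) w γ 𝒞 Y)
    (hpair : ∀ t r r', ∀ Y ∈ 𝒞 t r, ∀ Y' ∈ 𝒞 t r', TateNil H Fr (p ^ a) (Y.prod Y'))
    (hZ : Nil H Z) {D : ℚ} (hD : HasWidthAtMost H Fr lam D Z) (T : Pure C Fr (p ^ a))
    (hvan : ∀ V ∈ productsWith 𝒞 (IsShortInSquare lam w γ c D) Z, Vanishes T V) :
    ∀ V, SumFactor C (productsWith 𝒞 (fun _ => True) Z) V → Vanishes T V := by
  have hq : 0 < p ^ a := pow_pos (Fact.out : p.Prime).pos a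
  have h' : FlipsPairwise lam (p ^ a) w γ := by
    rcases h with h | ⟨h1, h2⟩
    · exact h
    · exact flips_of_quadratic hq hw h1 h2
  exact vanishes_few ha hFr hw (fun t => by exact_mod_cast width_ne ha hlam hw hc t) hnum hpair
    hZ T hvan fun i β ho L hL hex hno => shortInSquare ha hlam hw h' hc (ho.weil hFr)
      (fun β' hβ' => (ho.conj hβ').mem hD) hL hex hno

end Pool.Agent.H27.P
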