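import Pool.Agent.H27.P.Blocks

/-!
# Vanishing of pure theories from few factors: the main theorem
-/

set_option autoImplicit false
set_option linter.unusedSectionVars false
set_option linter.unusedVariables false

open CategoryTheory AlgebraicGeometry

universe u v w w'

namespace Pool.Agent.H27.P

open Polynomial Module Pool.Agent.H914 Pool.Agent.H914.VarClass Pool.Agent.H914.VarClass.Obj
  Pool.Agent.W492.BB Pool.Agent.W550.Corr Pool.Agent.TH133 Pool.Agent.W484.CH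
  Pool.Agent.Q56.CP Pool.Agent.Q56.FR
open Pool.Agent.H27.K3 (IsWeil)
open Pool.Agent.H27.Two (IsExact)
open Pool.Agent.H27.Lin (NoDual)

open Pool.Agent.Q56.FD (Qb)

variable {k : Type u} [Field k] {𝒱 : VarClass k}

/-- the product of a list as a product of a family -/
lemma exists_isProd_list (Z : 𝒱.Obj) (l : List 𝒱.Obj) : ∃ (X : Option (Fin l.length) → 𝒱.Obj)
    (pr : ∀ i, prodL Z l ⟶ X i), X none = Z ∧ (∀ i, X (some i) = l.get i) ∧
      IsProd X (prodL Z l) pr := by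
  let X : Option (Fin l.length) → 𝒱.Obj := fun o => o.elim Z l.get
  have h1 : ((List.finRange l.length).map some).map X = l := by
    rw [List.map_map]
    exact List.map_get_finRange l
  have h2 := isProd_univ X none ((List.finRange l.length).map some) (by
    rw [List.nodup_cons]
    refine ⟨fun h => ?_, (List.nodup_finRange _).map (Option.some_injective _)⟩
    obtain ⟨i, -, hi⟩ := List.mem_map.1 h
    exact Option.some_ne_none i hi) (fun j => by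
      rcases j with _ | j
      · exact List.mem_cons_self
      · exact List.mem_cons_of_mem _ (List.mem_map.2 ⟨j, List.mem_finRange j, rfl⟩))
  rw [h1] at h2
  obtain ⟨pr, h⟩ := h2
  exact ⟨X, pr, rfl, fun i => rfl, h⟩

variable {C : TheoryData.{u, v, 0} 𝒱 ℚ} {K : Type w}
  [Field K] [CharZero K] {H : WeilTheoryData.{u, v, w} C K} [hC : IsChowProj C]
  [hH : IsWeilProj H] {Fr : ∀ X : 𝒱.Obj, X ⟶ X} {p a : ℕ} [Fact p.Prime]
  {I : Type w'} {w : I → ℕ} {γ : I → Qb} {𝒞 : I → ℕ → Set 𝒱.Obj} {Z : 𝒱.Obj}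

/-- **Few factors.** -/
theorem vanish_few (ha : 0 < a) (hFr : FrobTheory H Fr (p ^ a))
    (hw : ∀ t, IsWeil (p ^ a) (w t) (γ t)) (hne : ∀ t, γ t ^ 2 ≠ ((p ^ a : ℕ) : Qb) ^ w t)
    (hnum : ∀ t r, ∀ Y ∈ 𝒞 t r, HasNumbers H Fr (p ^ a) w γ 𝒞 Y)
    (hpair : ∀ t r r', ∀ Y ∈ 𝒞 t r, ∀ Y' ∈ 𝒞 t r', TateNil H Fr (p ^ a) (Y.prod Y'))
    (hZ : Nil H Z) {P : List I → Prop} {T : CorrData C} (hT : IsPure T Fr (p ^ a))
    (hvan : ∀ V ∈ productsWith 𝒞 P Z, ∀ r, T.gr V r = ⊥)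
    (hshort : ∀ (i : ℕ) (β : Qb), Occurs H (Fr Z) i β → ∀ L : List (I × Qb),
      (∀ l ∈ L, IsConjRoot ℚ (γ l.1) l.2) → IsExact (p ^ a) w i β L → NoDual (p ^ a) w L →
        P (L.map Prod.fst)) (l : List 𝒱.Obj) (hl : ∀ Y ∈ l, ∃ t r, Y ∈ 𝒞 t r) (r : ℤ) :
    T.gr (prodL Z l) r = ⊥ := by
  classical
  obtain ⟨X, pr, h1, h2, h3⟩ := exists_isProd_list Z l
  have hAdm : Adm 𝒞 Z (Option (Fin l.length)) X := by
    refine ⟨none, h1, fun i hi => ?_⟩
    rcases i with _ | i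
    · exact absurd rfl hi
    · rw [h2]
      exact hl _ (List.get_mem l i)
  refine vanish_gen hT.corr hFr.nat (one_lt_pow_prime ha) hT.power (𝒜 := Adm 𝒞 Z)
    (R := RR H Fr) (hasBlocks ha hFr hw hne hnum hpair hT hvan hshort) ?_ (Z0 := Z) (hT.zero Z)
    _ (Option (Fin l.length)) rfl X hAdm (prodL Z l) pr h3 r
  rintro ι Y ⟨i₀, hi₀, hY⟩ i
  by_cases hi : i = i₀
  · rw [hi, hi₀]
    exact exists_rel hFr (nil_iff.1 hZ)
  · obtain ⟨t, s, hm⟩ := hY i hi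
    exact exists_rel hFr ((IsFactor.fst (C := C) (Y i) (Y i)).nilpotence
      (nil_iff.1 (hpair t s s _ hm _ hm).1))

/-- **Few factors**, for pure theories. -/
theorem vanishes_few (ha : 0 < a) (hFr : FrobTheory H Fr (p ^ a))
    (hw : ∀ t, IsWeil (p ^ a) (w t) (γ t)) (hne : ∀ t, γ t ^ 2 ≠ ((p ^ a : ℕ) : Qb) ^ w t)
    (hnum : ∀ t r, ∀ Y ∈ 𝒞 t r, HasNumbers H Fr (p ^ a) w γ 𝒞 Y)
    (hpair : ∀ t r r', ∀ Y ∈ 𝒞 t r, ∀ Y' ∈ 𝒞 t r', TateNil H Fr (p ^ a) (Y.prod Y'))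
    (hZ : Nil H Z) {P : List I → Prop} (T : Pure C Fr (p ^ a))
    (hvan : ∀ V ∈ productsWith 𝒞 P Z, Vanishes T V)
    (hshort : ∀ (i : ℕ) (β : Qb), Occurs H (Fr Z) i β → ∀ L : List (I × Qb),
      (∀ l ∈ L, IsConjRoot ℚ (γ l.1) l.2) → IsExact (p ^ a) w i β L → NoDual (p ^ a) w L →
        P (L.map Prod.fst)) :
    ∀ V, SumFactor C (productsWith 𝒞 (fun _ => True) Z) V → Vanishes T V := by
  intro V hV r
  refine IsSumFactor.vanish (T := T.toCorr) T.isPure.corr hV (fun W hW i => ?_) r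
  obtain ⟨s, hs, -, rfl⟩ := hW
  rw [foldr_eq]
  refine vanish_few ha hFr hw hne hnum hpair hZ T.isPure (fun V hV r => hvan V hV r) hshort
    (s.map Prod.snd) (fun Y hY => ?_) i
  obtain ⟨u, hu, rfl⟩ := List.mem_map.1 hY
  obtain ⟨r, hr⟩ := hs u hu
  exact ⟨u.1, r, hr⟩

end Pool.Agent.H27.P
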